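import Pool.Agent.STC.Defs

/-!
STC row D1. The decomposition at a prime `p` with `p ^ 2 ∣ n`, n = p * m, p ∣ m.

PROOF. x a = ∑_k c_k ω_a^k (f = ∑ c_k X^k, ω_a = stdAddChar (a : ZMod (p m))). Write k = i + p j, 0 ≤ i < p: ω_a^k = ω_a^i (ω_a^p)^j and
 ω_a^p = stdAddChar (ā : ZMod m), ā = unitsMap a (check: `ZMod.stdAddChar_coe`/`ZMod.toCircle_intCast`: exp(2πi a p/(p m)) = exp(2πi a/m)).
 So y i := aeval (stdAddChar b) f_i with f_i = ∑_j c_{i+pj} X^j. (It suffices to treat f = X^k and to use linearity: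
 the set of x having such a decomposition is closed under addition and ℤ-multiples; `Polynomial.induction_on'`.)
 Mean: the fibre of unitsMap over b has p elements, a, a + m t (t ∈ ZMod p) (they are units: every prime divisor of p m divides m), and
 ω_{a+mt}^i = ω_a^i e(t i/p), so ∑_{fibre} ‖x‖² = ∑_t ‖∑_i e(ti/p) ω_a^i y_i(b)‖² = p ∑_i ‖y_i(b)‖² (orthogonality of characters: expand
 the square; `AddChar.sum_eq_ite`/geometric sum). card (ZMod (p m))ˣ = p card (ZMod m)ˣ. Sum over b and divide.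
-/

namespace Pool.Agent.STC

open Polynomial

theorem D1_parseval {p : ℕ} {ζ : ℂ} (hp : 0 < p) (hζ : IsPrimitiveRoot ζ p) (z : Fin p → ℂ) :
    ∑ t : Fin p, ‖∑ i : Fin p, ζ ^ ((t : ℕ) * (i : ℕ)) * z i‖ ^ 2 = p * ∑ i, ‖z i‖ ^ 2 := by
  have hn : ‖ζ‖ = 1 := hζ.norm'_eq_one hp.ne'
  have hc : (starRingEnd ℂ) ζ = ζ⁻¹ := (Complex.inv_eq_conj hn).symm
  have h0 : ζ ≠ 0 := hζ.ne_zero hp.ne'
  have key : ∀ i j : Fin p, ∑ t : Fin p, (ζ ^ ((t : ℕ) * (i : ℕ)) * z i) *
      ((starRingEnd ℂ) (ζ ^ ((t : ℕ) * (j : ℕ)) * z j)) =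
      if i = j then (p : ℂ) * (z i * (starRingEnd ℂ) (z j)) else 0 := by
    intro i j
    have e1 : ∀ t : Fin p, (ζ ^ ((t : ℕ) * (i : ℕ)) * z i) *
        ((starRingEnd ℂ) (ζ ^ ((t : ℕ) * (j : ℕ)) * z j)) =
        (ζ ^ (i : ℕ) * ζ⁻¹ ^ (j : ℕ)) ^ (t : ℕ) * (z i * (starRingEnd ℂ) (z j)) := by
      intro t
      rw [map_mul, map_pow, hc, mul_pow, ← pow_mul, ← pow_mul, mul_comm (i : ℕ), mul_comm (j : ℕ)]
      ring
    simp_rw [e1]
    rw [← Finset.sum_mul]
    by_cases hij : i = j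
    · subst hij
      rw [if_pos rfl, ← mul_pow, mul_inv_cancel₀ h0]
      simp
    · rw [if_neg hij]
      set w : ℂ := ζ ^ (i : ℕ) * ζ⁻¹ ^ (j : ℕ) with hw
      have hw1 : w ≠ 1 := by
        intro h
        apply hij
        have : ζ ^ (i : ℕ) = ζ ^ (j : ℕ) := by
          rw [hw, inv_pow, mul_inv_eq_one₀ (pow_ne_zero _ h0)] at h
          exact h
        exact Fin.ext (hζ.pow_inj i.2 j.2 this)
      have hwp : w ^ p = 1 := by
        rw [hw, mul_pow, ← pow_mul, ← pow_mul, mul_comm (i : ℕ), mul_comm (j : ℕ), pow_mul, pow_mul,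
          inv_pow, hζ.pow_eq_one]
        simp
      have hs : ∑ t : Fin p, w ^ (t : ℕ) = 0 := by
        rw [Fin.sum_univ_eq_sum_range (fun t => w ^ t) p, geom_sum_eq hw1, hwp, sub_self, zero_div]
      rw [hs, zero_mul]
  apply Complex.ofReal_injective
  push_cast
  calc ∑ t : Fin p, ((‖∑ i : Fin p, ζ ^ ((t : ℕ) * (i : ℕ)) * z i‖ : ℝ) : ℂ) ^ 2
      = ∑ t : Fin p, ∑ i : Fin p, ∑ j : Fin p, (ζ ^ ((t : ℕ) * (i : ℕ)) * z i) *
        ((starRingEnd ℂ) (ζ ^ ((t : ℕ) * (j : ℕ)) * z j)) := by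
        refine Finset.sum_congr rfl fun t _ => ?_
        rw [← Complex.mul_conj', map_sum, Finset.sum_mul_sum]
    _ = ∑ i : Fin p, ∑ j : Fin p, ∑ t : Fin p, (ζ ^ ((t : ℕ) * (i : ℕ)) * z i) *
        ((starRingEnd ℂ) (ζ ^ ((t : ℕ) * (j : ℕ)) * z j)) := by
        rw [Finset.sum_comm]
        refine Finset.sum_congr rfl fun i _ => ?_
        rw [Finset.sum_comm]
    _ = ∑ i : Fin p, (p : ℂ) * (z i * (starRingEnd ℂ) (z i)) := by
        refine Finset.sum_congr rfl fun i _ => ?_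
        simp_rw [key]
        rw [Finset.sum_ite_eq Finset.univ i, if_pos (Finset.mem_univ i)]
    _ = (p : ℂ) * ∑ i, ((‖z i‖ : ℝ) : ℂ) ^ 2 := by
        rw [Finset.mul_sum]
        refine Finset.sum_congr rfl fun i _ => ?_
        rw [Complex.mul_conj']

theorem D1_mean {G H : Type*} [Group G] [Group H] [Fintype G] [Fintype H] (φ : G →* H)
    (hφ : Function.Surjective φ) (g : H → ℝ) :
    (∑ a, g (φ a)) / Fintype.card G = (∑ b, g b) / Fintype.card H := by
  classical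
  have hf : ∀ b : H, (Finset.univ.filter fun a => φ a = b).card =
      (Finset.univ.filter fun a => φ a = 1).card := by
    intro b
    exact MonoidHom.card_fiber_eq_of_mem_range φ (hφ b) (hφ 1)
  set K := (Finset.univ.filter fun a => φ a = 1).card with hK
  have h1 : ∑ a, g (φ a) = K * ∑ b, g b := by
    rw [← Finset.sum_fiberwise_of_maps_to (t := Finset.univ) (g := φ) (fun _ _ => Finset.mem_univ _),
      Finset.mul_sum]
    refine Finset.sum_congr rfl fun b _ => ?_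
    rw [Finset.sum_congr rfl (g := fun _ => g b) (fun a ha => by
      rw [(Finset.mem_filter.1 ha).2]), Finset.sum_const, hf b, nsmul_eq_mul]
  have h2 : Fintype.card G = K * Fintype.card H := by
    rw [← Finset.card_univ, Finset.card_eq_sum_card_fiberwise (f := φ) (t := Finset.univ)
      (fun _ _ => Finset.mem_coe.2 (Finset.mem_univ _))]
    rw [Finset.sum_congr rfl (fun b _ => hf b), Finset.sum_const, Finset.card_univ, smul_eq_mul,
      mul_comm]
  have hK0 : (K : ℝ) ≠ 0 := by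
    have : 0 < Fintype.card G := Fintype.card_pos
    intro h
    have h' : K = 0 := by exact_mod_cast h
    rw [h2, h', zero_mul] at this
    exact lt_irrefl _ this
  rw [h1, h2]
  push_cast
  exact mul_div_mul_left _ _ hK0

theorem D1_char {p m : ℕ} [NeZero m] [NeZero (p * m)] (k : ℤ) :
    (ZMod.stdAddChar ((k : ZMod (p * m)) * (p : ZMod (p * m))) : ℂ) = ZMod.stdAddChar (k : ZMod m) := by
  have h1 : (k : ZMod (p * m)) * (p : ZMod (p * m)) = ((k * p : ℤ) : ZMod (p * m)) := by push_cast; rfl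
  rw [h1, ZMod.stdAddChar_coe, ZMod.stdAddChar_coe]
  congr 1
  have hp : (p : ℂ) ≠ 0 := by
    have := NeZero.ne (p * m)
    exact_mod_cast left_ne_zero_of_mul this
  have hm : (m : ℂ) ≠ 0 := by exact_mod_cast NeZero.ne m
  push_cast
  field_simp

theorem D1_unit {p m : ℕ} [NeZero m] [NeZero (p * m)] (a : (ZMod (p * m))ˣ) :
    (ZMod.stdAddChar ((a : ZMod (p * m)) * (p : ZMod (p * m))) : ℂ) =
      ZMod.stdAddChar ((ZMod.unitsMap (dvd_mul_left m p) a : (ZMod m)ˣ) : ZMod m) := by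
  have h1 : (a : ZMod (p * m)) = (((a : ZMod (p * m)).val : ℤ) : ZMod (p * m)) := by
    rw [Int.cast_natCast, ZMod.natCast_zmod_val]
  have h2 : ((ZMod.unitsMap (dvd_mul_left m p) a : (ZMod m)ˣ) : ZMod m) =
      (((a : ZMod (p * m)).val : ℤ) : ZMod m) := by
    rw [Int.cast_natCast, ZMod.unitsMap_val, ZMod.cast_eq_val]
  rw [h2]
  conv_lhs => rw [h1]
  exact D1_char _

theorem D1_dec {p m : ℕ} [NeZero m] [NeZero (p * m)]
    {x : (ZMod (p * m))ˣ → ℂ} (hx : x ∈ A (p * m)) :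
    ∃ y : Fin p → (ZMod m)ˣ → ℂ, (∀ i, y i ∈ A m) ∧
      (∀ a, x a = ∑ i : Fin p, (ZMod.stdAddChar ((a : ZMod (p * m)) * ((i : ℕ) : ZMod (p * m))) : ℂ) *
        y i (ZMod.unitsMap (dvd_mul_left m p) a)) := by
  obtain ⟨f, hf⟩ := mem_A.1 hx
  have hp : 0 < p := Nat.pos_of_ne_zero (left_ne_zero_of_mul (NeZero.ne (p * m)))
  have main : ∀ f : ℤ[X], ∃ y : Fin p → (ZMod m)ˣ → ℂ, (∀ i, y i ∈ A m) ∧
      (∀ a : (ZMod (p * m))ˣ, aeval (ZMod.stdAddChar (a : ZMod (p * m)) : ℂ) f =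
        ∑ i : Fin p, (ZMod.stdAddChar ((a : ZMod (p * m)) * ((i : ℕ) : ZMod (p * m))) : ℂ) *
        y i (ZMod.unitsMap (dvd_mul_left m p) a)) := by
    intro f
    induction f using Polynomial.induction_on' with
    | add f g hf hg =>
      obtain ⟨y, hy, hy2⟩ := hf
      obtain ⟨z, hz, hz2⟩ := hg
      refine ⟨fun i => y i + z i, fun i => add_mem (hy i) (hz i), fun a => ?_⟩
      rw [map_add, hy2, hz2, ← Finset.sum_add_distrib]
      refine Finset.sum_congr rfl fun i _ => ?_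
      beta_reduce
      rw [Pi.add_apply, mul_add]
    | monomial k c =>
      refine ⟨fun i => if (i : ℕ) = k % p then
        fun b => (c : ℂ) * (ZMod.stdAddChar ((b : (ZMod m)ˣ) : ZMod m) : ℂ) ^ (k / p) else 0,
        fun i => ?_, fun a => ?_⟩
      · beta_reduce
        split_ifs
        · exact mem_A.2 ⟨monomial (k / p) c, fun b => by simp [aeval_monomial]⟩
        · exact zero_mem _
      · rw [Finset.sum_eq_single ⟨k % p, Nat.mod_lt _ hp⟩]
        · beta_reduce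
          rw [if_pos rfl, aeval_monomial]
          have e : (ZMod.stdAddChar (a : ZMod (p * m)) : ℂ) ^ k =
              (ZMod.stdAddChar ((a : ZMod (p * m)) * ((k % p : ℕ) : ZMod (p * m))) : ℂ) *
              (ZMod.stdAddChar ((ZMod.unitsMap (dvd_mul_left m p) a : (ZMod m)ˣ) : ZMod m) : ℂ) ^ (k / p) := by
            rw [← D1_unit, ← AddChar.map_nsmul_eq_pow, ← AddChar.map_nsmul_eq_pow, ← AddChar.map_add_eq_mul]
            congr 1
            rw [nsmul_eq_mul, nsmul_eq_mul]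
            conv_lhs => rw [← Nat.mod_add_div k p]
            push_cast
            ring
          rw [e]
          simp only [algebraMap_int_eq, Int.coe_castRingHom]
          ring
        · intro j _ hj
          have : ¬ ((j : ℕ) = k % p) := fun h => hj (Fin.ext h)
          beta_reduce
          rw [if_neg this, Pi.zero_apply, mul_zero]
        · intro h
          exact absurd (Finset.mem_univ _) h
  obtain ⟨y, hy, hy2⟩ := main f
  exact ⟨y, hy, fun a => by rw [hf, hy2]⟩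

theorem split_sq {p m : ℕ} [Fact p.Prime] [NeZero m] [NeZero (p * m)] (hpm : p ∣ m)
    {x : (ZMod (p * m))ˣ → ℂ} (hx : x ∈ A (p * m)) :
    ∃ y : Fin p → (ZMod m)ˣ → ℂ, (∀ i, y i ∈ A m) ∧
      (∀ a, x a = ∑ i : Fin p, (ZMod.stdAddChar ((a : ZMod (p * m)) * ((i : ℕ) : ZMod (p * m))) : ℂ) *
        y i (ZMod.unitsMap (dvd_mul_left m p) a)) ∧
      M (p * m) x = ∑ i, M m (y i) := by
  obtain ⟨y, hy, hy2⟩ := D1_dec hx
  refine ⟨y, hy, hy2, ?_⟩
  have hp : p.Prime := Fact.out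
  have hp0 : 0 < p := hp.pos
  have hmm : (m : ZMod (p * m)) * (m : ZMod (p * m)) = 0 := by
    have : ((m * m : ℕ) : ZMod (p * m)) = 0 := by
      rw [ZMod.natCast_eq_zero_iff]
      exact mul_dvd_mul_right hpm m
    exact_mod_cast this
  have hpm0 : (m : ZMod (p * m)) * (p : ZMod (p * m)) = 0 := by
    have : ((m * p : ℕ) : ZMod (p * m)) = 0 := by
      rw [ZMod.natCast_eq_zero_iff, mul_comm]
    exact_mod_cast this
  have hm0 : (m : ZMod (p * m)) ≠ 0 := by
    intro h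
    rw [ZMod.natCast_eq_zero_iff] at h
    have h1 := Nat.le_of_dvd (Nat.pos_of_ne_zero (NeZero.ne m)) h
    have h2 := hp.two_le
    have h3 := Nat.pos_of_ne_zero (NeZero.ne m)
    nlinarith
  -- the units `1 + m t`
  have hu : ∀ t : ℕ, ∃ u : (ZMod (p * m))ˣ, (u : ZMod (p * m)) = 1 + m * t := by
    intro t
    have h1 : (1 + (m : ZMod (p * m)) * t) * (1 - m * t) = 1 := by
      calc (1 + (m : ZMod (p * m)) * t) * (1 - m * t) = 1 - (m * m) * t ^ 2 := by ring
        _ = 1 := by rw [hmm]; ring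
    have h2 : (1 - (m : ZMod (p * m)) * t) * (1 + m * t) = 1 := by
      calc (1 - (m : ZMod (p * m)) * t) * (1 + m * t) = (1 + (m : ZMod (p * m)) * t) * (1 - m * t) := by ring
        _ = 1 := h1
    exact ⟨⟨_, _, h1, h2⟩, rfl⟩
  choose u hu using hu
  have hφ : ∀ t : ℕ, ZMod.unitsMap (dvd_mul_left m p) (u t) = 1 := by
    intro t
    apply Units.ext
    have h1 : ((u t : (ZMod (p * m))ˣ) : ZMod (p * m)) = ((1 + m * t : ℕ) : ZMod (p * m)) := by
      rw [hu]; push_cast; rfl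
    rw [ZMod.unitsMap_val, h1, ZMod.cast_natCast (dvd_mul_left m p)]
    push_cast
    rw [ZMod.natCast_self, zero_mul, add_zero]
  have hroot : ∀ a : (ZMod (p * m))ˣ,
      IsPrimitiveRoot (ZMod.stdAddChar ((a : ZMod (p * m)) * (m : ZMod (p * m))) : ℂ) p := by
    intro a
    have h1 : (ZMod.stdAddChar ((a : ZMod (p * m)) * (m : ZMod (p * m))) : ℂ) ^ p = 1 := by
      rw [← AddChar.map_nsmul_eq_pow, nsmul_eq_mul]
      rw [show (p : ZMod (p * m)) * ((a : ZMod (p * m)) * (m : ZMod (p * m))) = a * (m * p) by ring, hpm0, mul_zero,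
        AddChar.map_zero_eq_one]
    have h2 : (ZMod.stdAddChar ((a : ZMod (p * m)) * (m : ZMod (p * m))) : ℂ) ≠ 1 := by
      intro h
      rw [← AddChar.map_zero_eq_one (ZMod.stdAddChar (N := p * m))] at h
      have h3 := ZMod.injective_stdAddChar h
      exact hm0 ((Units.mul_right_eq_zero a).1 h3)
    have h3 := orderOf_eq_prime h1 h2
    exact IsPrimitiveRoot.iff_orderOf.2 h3
  have hshift : ∀ (a : (ZMod (p * m))ˣ) (t : ℕ), x (a * u t) = ∑ i : Fin p,
      (ZMod.stdAddChar ((a : ZMod (p * m)) * (m : ZMod (p * m))) : ℂ) ^ (t * (i : ℕ)) *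
      ((ZMod.stdAddChar ((a : ZMod (p * m)) * ((i : ℕ) : ZMod (p * m))) : ℂ) *
        y i (ZMod.unitsMap (dvd_mul_left m p) a)) := by
    intro a t
    rw [hy2]
    refine Finset.sum_congr rfl fun i _ => ?_
    have e1 : ZMod.unitsMap (dvd_mul_left m p) (a * u t) = ZMod.unitsMap (dvd_mul_left m p) a := by
      rw [map_mul, hφ, mul_one]
    rw [e1, ← mul_assoc, ← AddChar.map_nsmul_eq_pow, ← AddChar.map_add_eq_mul]
    congr 2
    rw [Units.val_mul, hu, nsmul_eq_mul]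
    push_cast
    ring
  have hfib : ∀ a : (ZMod (p * m))ˣ, ∑ t : Fin p, ‖x (a * u (t : ℕ))‖ ^ 2 =
      p * ∑ i, ‖y i (ZMod.unitsMap (dvd_mul_left m p) a)‖ ^ 2 := by
    intro a
    simp_rw [hshift]
    rw [D1_parseval hp0 (hroot a)]
    congr 1
    refine Finset.sum_congr rfl fun i _ => ?_
    rw [norm_mul, AddChar.norm_apply, one_mul]
  have hsum : ∑ a, ‖x a‖ ^ 2 = ∑ a, ∑ i, ‖y i (ZMod.unitsMap (dvd_mul_left m p) a)‖ ^ 2 := by
    have h1 : (p : ℝ) * ∑ a, ‖x a‖ ^ 2 =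
        p * ∑ a, ∑ i, ‖y i (ZMod.unitsMap (dvd_mul_left m p) a)‖ ^ 2 := by
      calc (p : ℝ) * ∑ a, ‖x a‖ ^ 2 = ∑ t : Fin p, ∑ a, ‖x (a * u (t : ℕ))‖ ^ 2 := by
            have h2 : ∀ t : Fin p, ∑ a, ‖x (a * u (t : ℕ))‖ ^ 2 = ∑ a, ‖x a‖ ^ 2 := fun t =>
              Equiv.sum_comp (Equiv.mulRight (u (t : ℕ))) (fun a => ‖x a‖ ^ 2)
            simp_rw [h2]
            rw [Finset.sum_const, Finset.card_univ, Fintype.card_fin, nsmul_eq_mul]
        _ = ∑ a, ∑ t : Fin p, ‖x (a * u (t : ℕ))‖ ^ 2 := Finset.sum_comm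
        _ = _ := by
            simp_rw [hfib]
            rw [Finset.mul_sum]
    exact mul_left_cancel₀ (by exact_mod_cast hp0.ne') h1
  have hm := D1_mean (ZMod.unitsMap (dvd_mul_left m p)) (ZMod.unitsMap_surjective (dvd_mul_left m p))
    (fun b => ∑ i, ‖y i b‖ ^ 2)
  unfold M
  rw [hsum, hm, Finset.sum_comm, Finset.sum_div]

end Pool.Agent.STC
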