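import Pool.Agent.STC.Defs

/-!
STC row D2. The decomposition at a prime `p` with `p ∥ n`, n = p * m, p coprime to m.

PROOF. Choose integers s, t with s m + t p = 1 (Bezout): exp(2πi a/(pm)) = exp(2πi a s/p) exp(2πi a t/m), i.e.
 stdAddChar (a : ZMod (p m)) = stdAddChar ((a mod p) * s : ZMod p) * stdAddChar ((a mod m) * t : ZMod m). So for x a = ∑_k c_k ω_a^k:
 y i b := ∑_{k : k s ≡ i mod p} c_k stdAddChar (b t k) ∈ A m (powers `root_mem_A`, `int_mem_A`, sums; or by linearity over the monomials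
 X^k as in row D1: x = ω^k: y i = if i = s k then root else 0).
 Mean: (ZMod (p m))ˣ ≃ (ZMod p)ˣ × (ZMod m)ˣ by a ↦ (unitsMap a, unitsMap a) (`ZMod.chineseRemainder`, `Units.mapEquiv`, `MulEquiv.prodUnits`).
 For b fixed: ∑_{c ∈ (ZMod p)ˣ} ‖∑_i e(ci) y_i‖² = ∑_{c ∈ ZMod p} ‖…‖² - ‖∑_i y_i‖² = p ∑ ‖y_i‖² - ‖∑ y_i‖² = 1/2 ∑_{i,j} ‖y_i - y_j‖².
 card = (p-1) card (ZMod m)ˣ.
-/

namespace Pool.Agent.STC

open Polynomial

private lemma D2_root {p m : ℕ} [NeZero p] [NeZero m] [NeZero (p * m)] {s t : ℤ}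
    (hst : s * m + t * p = 1) (j : ℤ) :
    (ZMod.stdAddChar (j : ZMod (p * m)) : ℂ) =
      ZMod.stdAddChar ((j * s : ℤ) : ZMod p) * ZMod.stdAddChar ((j * t : ℤ) : ZMod m) := by
  rw [ZMod.stdAddChar_coe, ZMod.stdAddChar_coe, ZMod.stdAddChar_coe, ← Complex.exp_add]
  congr 1
  have hp : (p : ℂ) ≠ 0 := by exact_mod_cast NeZero.ne p
  have hm : (m : ℂ) ≠ 0 := by exact_mod_cast NeZero.ne m
  have h : (s : ℂ) * m + t * p = 1 := by exact_mod_cast hst
  push_cast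
  field_simp
  linear_combination (-(j : ℂ)) * h

private lemma D2_root' {p m : ℕ} [NeZero p] [NeZero m] [NeZero (p * m)] {s t : ℤ}
    (hst : s * m + t * p = 1) (a : ZMod (p * m)) (k : ℕ) :
    (ZMod.stdAddChar a : ℂ) ^ k =
      ZMod.stdAddChar (ZMod.castHom (dvd_mul_right p m) (ZMod p) a * ((s * k : ℤ) : ZMod p)) *
      ZMod.stdAddChar (ZMod.castHom (dvd_mul_left m p) (ZMod m) a * ((t * k : ℤ) : ZMod m)) := by
  obtain ⟨j, rfl⟩ := ZMod.intCast_surjective a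
  rw [← AddChar.map_nsmul_eq_pow, nsmul_eq_mul]
  have h1 : (k : ZMod (p * m)) * (j : ZMod (p * m)) = ((k * j : ℤ) : ZMod (p * m)) := by
    push_cast; ring
  rw [h1, D2_root hst]
  simp only [map_intCast]
  congr 2
  · push_cast; ring
  · push_cast; ring

private lemma D2_parseval {p : ℕ} [NeZero p] (y : ZMod p → ℂ) :
    ∑ c : ZMod p, ‖∑ i, (ZMod.stdAddChar (c * i) : ℂ) * y i‖ ^ 2 = p * ∑ i, ‖y i‖ ^ 2 := by
  have key : ∑ c : ZMod p, ((∑ i, (ZMod.stdAddChar (c * i) : ℂ) * y i) *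
      (starRingEnd ℂ) (∑ i, (ZMod.stdAddChar (c * i) : ℂ) * y i)) =
      p * ∑ i, y i * (starRingEnd ℂ) (y i) := by
    simp only [map_sum, map_mul, ← AddChar.map_neg_eq_conj, Finset.sum_mul_sum]
    rw [Finset.sum_comm, Finset.mul_sum]
    refine Finset.sum_congr rfl fun i _ => ?_
    rw [Finset.sum_comm]
    have h1 : ∀ j, ∑ c : ZMod p, (ZMod.stdAddChar (c * i) : ℂ) * y i *
        ((ZMod.stdAddChar (-(c * j)) : ℂ) * (starRingEnd ℂ) (y j)) =
        (if i - j = 0 then (p : ℂ) else 0) * (y i * (starRingEnd ℂ) (y j)) := by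
      intro j
      have h2 := AddChar.sum_mulShift (i - j) (ZMod.isPrimitive_stdAddChar p)
      rw [ZMod.card] at h2
      have h3 : (if i - j = 0 then (p : ℂ) else 0) =
          (((if i - j = 0 then p else 0 : ℕ)) : ℂ) := by split_ifs <;> simp
      rw [h3, ← h2, Finset.sum_mul]
      refine Finset.sum_congr rfl fun c _ => ?_
      rw [mul_sub, sub_eq_add_neg, AddChar.map_add_eq_mul]
      ring
    simp only [h1, sub_eq_zero, ite_mul, zero_mul, Finset.sum_ite_eq, Finset.mem_univ, if_true]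
  have hc : ∀ z : ℂ, ((‖z‖ ^ 2 : ℝ) : ℂ) = z * (starRingEnd ℂ) z := by
    intro z
    rw [Complex.mul_conj, Complex.normSq_eq_norm_sq]
  have : ((∑ c : ZMod p, ‖∑ i, (ZMod.stdAddChar (c * i) : ℂ) * y i‖ ^ 2 : ℝ) : ℂ) =
      ((p * ∑ i, ‖y i‖ ^ 2 : ℝ) : ℂ) := by
    push_cast
    simp only [← Complex.ofReal_pow, hc]
    exact key
  exact_mod_cast this

private lemma D2_pairs {ι : Type*} [Fintype ι] (y : ι → ℂ) :
    ∑ i, ∑ j, ‖y i - y j‖ ^ 2 =
      2 * (Fintype.card ι * ∑ i, ‖y i‖ ^ 2) - 2 * ‖∑ i, y i‖ ^ 2 := by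
  have h0 : ∀ a b : ℂ, ‖a - b‖ ^ 2 = ‖a‖ ^ 2 + ‖b‖ ^ 2 - 2 * (a * (starRingEnd ℂ) b).re := by
    intro a b
    rw [← Complex.normSq_eq_norm_sq, ← Complex.normSq_eq_norm_sq, ← Complex.normSq_eq_norm_sq,
      Complex.normSq_sub]
  have h1 : ‖∑ i, y i‖ ^ 2 = ∑ i, ∑ j, (y i * (starRingEnd ℂ) (y j)).re := by
    rw [← Complex.normSq_eq_norm_sq, ← Complex.ofReal_re (Complex.normSq _),
      ← Complex.mul_conj, map_sum, Finset.sum_mul_sum, Complex.re_sum]
    refine Finset.sum_congr rfl fun i _ => ?_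
    rw [Complex.re_sum]
  simp only [h0, Finset.sum_sub_distrib, Finset.sum_add_distrib, Finset.sum_const,
    Finset.card_univ, nsmul_eq_mul, ← Finset.mul_sum, ← h1]
  ring

private lemma D2_units {p : ℕ} [Fact p.Prime] (F : ZMod p → ℝ) :
    ∑ c : (ZMod p)ˣ, F c = ∑ c, F c - F 0 := by
  rw [← Finset.add_sum_erase _ _ (Finset.mem_univ (0 : ZMod p)), add_sub_cancel_left,
    ← Equiv.sum_comp (unitsEquivNeZero (G₀ := ZMod p)).symm]
  rw [Finset.sum_subtype (p := fun c : ZMod p => c ≠ 0) (Finset.univ.erase (0 : ZMod p))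
    (by intro x; simp) F]
  refine Finset.sum_congr rfl fun c _ => ?_
  congr 1

private noncomputable def D2_equiv {p m : ℕ} (hpm : Nat.Coprime p m) :
    (ZMod (p * m))ˣ ≃* (ZMod p)ˣ × (ZMod m)ˣ :=
  (Units.mapEquiv (ZMod.chineseRemainder hpm).toMulEquiv).trans MulEquiv.prodUnits

private lemma D2_fst {p m : ℕ} (hpm : Nat.Coprime p m) (a : (ZMod (p * m))ˣ) :
    (D2_equiv hpm a).1 = ZMod.unitsMap (dvd_mul_right p m) a := by
  apply Units.ext
  have : (RingHom.fst (ZMod p) (ZMod m)).comp (ZMod.chineseRemainder hpm : _ →+* _) =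
      ZMod.castHom (dvd_mul_right p m) (ZMod p) := Subsingleton.elim _ _
  exact congrArg (fun f : ZMod (p * m) →+* ZMod p => f (a : ZMod (p * m))) this

private lemma D2_snd {p m : ℕ} (hpm : Nat.Coprime p m) (a : (ZMod (p * m))ˣ) :
    (D2_equiv hpm a).2 = ZMod.unitsMap (dvd_mul_left m p) a := by
  apply Units.ext
  have : (RingHom.snd (ZMod p) (ZMod m)).comp (ZMod.chineseRemainder hpm : _ →+* _) =
      ZMod.castHom (dvd_mul_left m p) (ZMod m) := Subsingleton.elim _ _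
  exact congrArg (fun f : ZMod (p * m) →+* ZMod m => f (a : ZMod (p * m))) this

theorem split_prime {p m : ℕ} [Fact p.Prime] [NeZero m] [NeZero (p * m)] (hpm : Nat.Coprime p m)
    {x : (ZMod (p * m))ˣ → ℂ} (hx : x ∈ A (p * m)) :
    ∃ y : ZMod p → (ZMod m)ˣ → ℂ, (∀ i, y i ∈ A m) ∧
      (∀ a, x a = ∑ i : ZMod p,
        (ZMod.stdAddChar ((ZMod.unitsMap (dvd_mul_right p m) a : ZMod p) * i) : ℂ) *
          y i (ZMod.unitsMap (dvd_mul_left m p) a)) ∧
      ((p : ℝ) - 1) * M (p * m) x = (1 / 2) * ∑ i, ∑ j, M m (y i - y j) := by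
  obtain ⟨f, hf⟩ := mem_A.1 hx
  obtain ⟨s, t, hst⟩ : ∃ s t : ℤ, s * m + t * p = 1 := by
    have h := Int.isCoprime_iff_gcd_eq_one.2 (show Int.gcd (m : ℤ) (p : ℤ) = 1 by
      simpa using hpm.symm)
    obtain ⟨s, t, h⟩ := h
    exact ⟨s, t, h⟩
  let y : ZMod p → (ZMod m)ˣ → ℂ := fun i => ∑ k ∈ f.support,
    if ((s * k : ℤ) : ZMod p) = i then
      (fun _ => ((f.coeff k : ℤ) : ℂ)) *
        (fun b : (ZMod m)ˣ => (ZMod.stdAddChar ((b : ZMod m) * ((t * k : ℤ) : ZMod m)) : ℂ))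
    else 0
  have hy : ∀ i, y i ∈ A m := by
    intro i
    refine sum_mem fun k _ => ?_
    split_ifs
    · exact mul_mem (int_mem_A m _) (root_mem_A m _)
    · exact zero_mem _
  have hxy : ∀ a, x a = ∑ i : ZMod p,
        (ZMod.stdAddChar ((ZMod.unitsMap (dvd_mul_right p m) a : ZMod p) * i) : ℂ) *
          y i (ZMod.unitsMap (dvd_mul_left m p) a) := by
    intro a
    rw [hf a, aeval_eq_sum_range, ← Polynomial.sum_over_range' f (f := fun k c =>
      c • (ZMod.stdAddChar (a : ZMod (p * m)) : ℂ) ^ k) (by intro; simp) _ (Nat.lt_succ_self _),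
      Polynomial.sum_def]
    have hyi : ∀ (i : ZMod p) (b : (ZMod m)ˣ), y i b = ∑ k ∈ f.support,
        if ((s * k : ℤ) : ZMod p) = i then ((f.coeff k : ℤ) : ℂ) *
          (ZMod.stdAddChar ((b : ZMod m) * ((t * k : ℤ) : ZMod m)) : ℂ) else 0 := by
      intro i b
      simp only [y, Finset.sum_apply]
      refine Finset.sum_congr rfl fun k _ => ?_
      split_ifs <;> rfl
    simp only [hyi, Finset.mul_sum]
    rw [Finset.sum_comm]
    refine Finset.sum_congr rfl fun k _ => ?_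
    simp only [mul_ite, mul_zero, Finset.sum_ite_eq, Finset.mem_univ, if_true]
    rw [D2_root' hst, zsmul_eq_mul]
    have e1 : ((ZMod.unitsMap (dvd_mul_right p m) a : (ZMod p)ˣ) : ZMod p) =
      ZMod.castHom (dvd_mul_right p m) (ZMod p) (a : ZMod (p * m)) := rfl
    have e2 : ((ZMod.unitsMap (dvd_mul_left m p) a : (ZMod m)ˣ) : ZMod m) =
      ZMod.castHom (dvd_mul_left m p) (ZMod m) (a : ZMod (p * m)) := rfl
    rw [e1, e2]
    ring
  refine ⟨y, hy, hxy, ?_⟩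
  have hcard : (Fintype.card (ZMod (p * m))ˣ : ℝ) = ((p : ℝ) - 1) * Fintype.card (ZMod m)ˣ := by
    have h1 : Fintype.card (ZMod (p * m))ˣ = Fintype.card (ZMod p)ˣ * Fintype.card (ZMod m)ˣ := by
      rw [Fintype.card_congr (D2_equiv hpm).toEquiv, Fintype.card_prod]
    have hp1 : 1 ≤ p := (Fact.out : p.Prime).one_le
    rw [h1, ZMod.card_units_eq_totient p, Nat.totient_prime Fact.out]
    push_cast [Nat.cast_sub hp1]
    ring
  have hsum : ∑ a, ‖x a‖ ^ 2 = ∑ b : (ZMod m)ˣ, (1 / 2 : ℝ) * ∑ i, ∑ j, ‖y i b - y j b‖ ^ 2 := by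
    have h1 : ∑ a, ‖x a‖ ^ 2 = ∑ cb : (ZMod p)ˣ × (ZMod m)ˣ,
        ‖∑ i : ZMod p, (ZMod.stdAddChar ((cb.1 : ZMod p) * i) : ℂ) * y i cb.2‖ ^ 2 := by
      rw [← Equiv.sum_comp (D2_equiv hpm).toEquiv]
      refine Finset.sum_congr rfl fun a _ => ?_
      rw [hxy a, ← D2_fst hpm, ← D2_snd hpm]
      rfl
    rw [h1, Fintype.sum_prod_type_right]
    refine Finset.sum_congr rfl fun b _ => ?_
    rw [D2_units (fun c : ZMod p => ‖∑ i : ZMod p, (ZMod.stdAddChar (c * i) : ℂ) * y i b‖ ^ 2),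
      D2_parseval (fun i => y i b), D2_pairs (fun i => y i b), ZMod.card]
    simp only [zero_mul, AddChar.map_zero_eq_one, one_mul]
    ring
  have hM : ∀ i j, M m (y i - y j) =
      (∑ b, ‖y i b - y j b‖ ^ 2) / Fintype.card (ZMod m)ˣ := fun i j => rfl
  simp only [hM]
  have hp2 : ((p : ℝ) - 1) ≠ 0 := by
    have : (1 : ℝ) < p := by exact_mod_cast (Fact.out : p.Prime).one_lt
    linarith
  have hc := (card_pos' m).ne'
  rw [M, hsum, hcard, ← Finset.mul_sum]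
  have hsw : ∑ i, ∑ j, (∑ b, ‖y i b - y j b‖ ^ 2) / (Fintype.card (ZMod m)ˣ : ℝ) =
      (∑ b : (ZMod m)ˣ, ∑ i, ∑ j, ‖y i b - y j b‖ ^ 2) / (Fintype.card (ZMod m)ˣ : ℝ) := by
    simp only [← Finset.sum_div]
    congr 1
    rw [Finset.sum_comm (γ := ZMod p)]
    have : ∀ i, ∑ j, ∑ b, ‖y i b - y j b‖ ^ 2 = ∑ b : (ZMod m)ˣ, ∑ j, ‖y i b - y j b‖ ^ 2 :=
      fun i => Finset.sum_comm
    rw [Finset.sum_comm (γ := ZMod p)]
    simp only [this]
    rw [Finset.sum_comm]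
  rw [hsw]
  field_simp

/-- The two reductions of a unit can be prescribed. -/
theorem exists_unit {p m : ℕ} [Fact p.Prime] [NeZero m] [NeZero (p * m)] (hpm : Nat.Coprime p m)
    (c : (ZMod p)ˣ) (b : (ZMod m)ˣ) : ∃ a : (ZMod (p * m))ˣ,
      ZMod.unitsMap (dvd_mul_right p m) a = c ∧ ZMod.unitsMap (dvd_mul_left m p) a = b := by
  refine ⟨(D2_equiv hpm).symm (c, b), ?_, ?_⟩
  · rw [← D2_fst hpm, MulEquiv.apply_symm_apply]
  · rw [← D2_snd hpm, MulEquiv.apply_symm_apply]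

end Pool.Agent.STC
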