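import Mathlib

/-!
STC: the ring of the conjugates of cyclotomic integers (definitions).

An element of the ring `ℤ[ζ_n]` is identified with the function on `(ZMod n)ˣ` of its conjugates:
the polynomial `f` gives the function `a ↦ f (ζ_n ^ a)`.
-/

namespace Pool.Agent.STC

open Polynomial

/-- The ring homomorphism `f ↦ (a ↦ f (ζ_n ^ a))`. -/
noncomputable def evHom (n : ℕ) [NeZero n] : ℤ[X] →+* ((ZMod n)ˣ → ℂ) :=
  RingHom.pi fun a => (aeval (R := ℤ) (ZMod.stdAddChar ((a : (ZMod n)ˣ) : ZMod n) : ℂ)).toRingHom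

/-- The ring `ℤ[ζ_n]`, as a ring of functions on `(ZMod n)ˣ`. -/
noncomputable def A (n : ℕ) [NeZero n] : Subring ((ZMod n)ˣ → ℂ) := (evHom n).range

/-- The mean of the squares of the absolute values of the conjugates. -/
noncomputable def M (n : ℕ) [NeZero n] (x : (ZMod n)ˣ → ℂ) : ℝ :=
  (∑ a, ‖x a‖ ^ 2) / Fintype.card (ZMod n)ˣ

lemma evHom_apply (n : ℕ) [NeZero n] (f : ℤ[X]) (a : (ZMod n)ˣ) :
    evHom n f a = aeval (ZMod.stdAddChar (a : ZMod n) : ℂ) f := rfl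

lemma mem_A {n : ℕ} [NeZero n] {x : (ZMod n)ˣ → ℂ} :
    x ∈ A n ↔ ∃ f : ℤ[X], ∀ a, x a = aeval (ZMod.stdAddChar (a : ZMod n) : ℂ) f := by
  constructor
  · rintro ⟨f, rfl⟩
    exact ⟨f, fun a => rfl⟩
  · rintro ⟨f, hf⟩
    exact ⟨f, funext fun a => (hf a).symm⟩

/-- The powers of the root of unity. -/
lemma root_mem_A (n : ℕ) [NeZero n] (k : ZMod n) :
    (fun a : (ZMod n)ˣ => (ZMod.stdAddChar ((a : ZMod n) * k) : ℂ)) ∈ A n := by
  refine mem_A.2 ⟨X ^ k.val, fun a => ?_⟩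
  rw [map_pow, aeval_X, ← AddChar.map_nsmul_eq_pow]
  congr 1
  rw [nsmul_eq_mul, ZMod.natCast_zmod_val, mul_comm]

lemma int_mem_A (n : ℕ) [NeZero n] (k : ℤ) : (fun _ : (ZMod n)ˣ => (k : ℂ)) ∈ A n :=
  mem_A.2 ⟨C k, fun a => by simp⟩

lemma M_nonneg (n : ℕ) [NeZero n] (x : (ZMod n)ˣ → ℂ) : 0 ≤ M n x := by
  unfold M
  positivity

lemma card_pos' (n : ℕ) [NeZero n] : (0 : ℝ) < Fintype.card (ZMod n)ˣ := by
  exact_mod_cast Fintype.card_pos

lemma M_mul_card (n : ℕ) [NeZero n] (x : (ZMod n)ˣ → ℂ) :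
    M n x * Fintype.card (ZMod n)ˣ = ∑ a, ‖x a‖ ^ 2 := by
  unfold M
  exact div_mul_cancel₀ _ (card_pos' n).ne'

end Pool.Agent.STC
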