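import Mathlib

/-!
STC row I1. The one-variable inequality for totally positive integers.

PROOF. For 0 < x < 1: log x ≤ log (3/10) + (x - 3/10)/(3/10) and log (1-x) ≤ log (7/10) - (x - 3/10)/(7/10) (`Real.log_le_sub_one_of_pos` for
 x/(3/10), (1-x)/(7/10)); the slopes cancel exactly: 1 - (7/10)/(3/10) + (14/15)/(7/10) = 0. So the left side is
 ≥ 3/10 - (7/10) log (3/10) - (14/15) log (7/10) = 1.4757 ≥ 147/100.
For x > 1: the same at 7/3: log x ≤ log (7/3) + (x - 7/3)/(7/3), log (x-1) ≤ log (4/3) + (x - 7/3)/(4/3); 1 - 3/10 - 7/10 = 0, and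
 7/3 - (7/10) log (7/3) - (14/15) log (4/3) = 1.47172 ≥ 147/100, i.e. 21 log (7/3) + 28 log (4/3) ≤ 25.9, i.e.
 (7/3)^210 (4/3)^280 ≤ e^259: (7/3)^210 (4/3)^280 ≤ 2.7182818283^259 by norm_num and `Real.exp_one_gt_d9`
 (log of a product of powers: `Real.log_pow`, `Real.log_mul`, `Real.log_le_iff_le_exp`-style with `Real.exp_one_rpow`/`Real.exp_nat_mul`).
 The first numerical inequality similarly: 21 log (10/3) + 28 log (10/7) ≥ 35.1 has the margin 0.17: (3/10)^210 (7/10)^280 * e^351 ≤ 1 …
 (use e ≤ 2.7182818286, `Real.exp_one_lt_d9`).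
-/

namespace Pool.Agent.STC

private lemma I1_low : 176 ≤ 105 * Real.log (10 / 3) + 140 * Real.log (10 / 7) := by
  have h1 : (176 : ℝ) ≤ Real.log ((10 / 3) ^ 105 * (10 / 7) ^ 140) := by
    rw [Real.le_log_iff_exp_le (by positivity)]
    have h2 : Real.exp 176 = Real.exp 1 ^ 176 := by
      rw [Real.exp_one_pow]
      norm_num
    rw [h2]
    refine le_trans (pow_le_pow_left₀ (Real.exp_pos 1).le Real.exp_one_lt_d9.le 176) ?_
    norm_num
  rw [Real.log_mul (by positivity) (by positivity), Real.log_pow, Real.log_pow] at h1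
  push_cast at h1
  exact h1

private lemma I1_up : 30 * Real.log (7 / 3) + 40 * Real.log (4 / 3) ≤ 37 := by
  have h1 : Real.log ((7 / 3) ^ 30 * (4 / 3) ^ 40) ≤ (37 : ℝ) := by
    rw [Real.log_le_iff_le_exp (by positivity)]
    have h2 : Real.exp 37 = Real.exp 1 ^ 37 := by
      rw [Real.exp_one_pow]
      norm_num
    rw [h2]
    refine le_trans ?_ (pow_le_pow_left₀ (by norm_num) Real.exp_one_gt_d9.le 37)
    norm_num
  rw [Real.log_mul (by positivity) (by positivity), Real.log_pow, Real.log_pow] at h1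
  push_cast at h1
  exact h1

/-- The tangent inequality of the logarithm. -/
private lemma I1_tan {y c : ℝ} (hy : 0 < y) (hc : 0 < c) :
    Real.log y ≤ Real.log c + (y / c - 1) := by
  have h := Real.log_le_sub_one_of_pos (div_pos hy hc)
  rw [Real.log_div hy.ne' hc.ne'] at h
  linarith

theorem ineqB (x : ℝ) (h0 : 0 < x) (h1 : x ≠ 1) :
    147 / 100 ≤ x - 7 / 10 * Real.log x - 14 / 15 * Real.log |x - 1| := by
  rcases lt_or_gt_of_ne h1 with h | h
  · have ha : |x - 1| = 1 - x := by
      rw [abs_of_neg (by linarith)]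
      ring
    rw [ha]
    have t1 := I1_tan h0 (show (0 : ℝ) < 3 / 10 by norm_num)
    have t2 := I1_tan (show (0 : ℝ) < 1 - x by linarith) (show (0 : ℝ) < 7 / 10 by norm_num)
    have e1 : Real.log (3 / 10) = - Real.log (10 / 3) := by
      rw [← Real.log_inv]
      norm_num
    have e2 : Real.log (7 / 10) = - Real.log (10 / 7) := by
      rw [← Real.log_inv]
      norm_num
    rw [e1] at t1
    rw [e2] at t2
    have k := I1_low
    have f1 : x / (3 / 10) = 10 / 3 * x := by ring
    have f2 : (1 - x) / (7 / 10) = 10 / 7 * (1 - x) := by ring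
    rw [f1] at t1
    rw [f2] at t2
    linarith
  · have ha : |x - 1| = x - 1 := abs_of_pos (by linarith)
    rw [ha]
    have t1 := I1_tan h0 (show (0 : ℝ) < 7 / 3 by norm_num)
    have t2 := I1_tan (show (0 : ℝ) < x - 1 by linarith) (show (0 : ℝ) < 4 / 3 by norm_num)
    have k := I1_up
    have f1 : x / (7 / 3) = 3 / 7 * x := by ring
    have f2 : (x - 1) / (4 / 3) = 3 / 4 * (x - 1) := by ring
    rw [f1] at t1
    rw [f2] at t2
    linarith

end Pool.Agent.STC
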