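import Pool.Agent.STC.Defs

/-!
STC row N2. Closure properties of `A n`.

PROOF. `conj_mem`: x a = aeval ω_a f; conj ω_a = ω_a⁻¹ = ω_a ^ (n-1) (norm one; stdAddChar values are n-th roots of unity), so take
 f.comp (X ^ (n-1)) (`aeval_comp`); conj (aeval ω f) = aeval (conj ω) f for f over ℤ (`map_aeval`, or `Polynomial.aeval_conj`-style:
 `(starRingEnd ℂ)` is a ring hom: `Polynomial.hom_eval₂`).
`dil_mem`: ω_{ab} = ω_a ^ b.val: f.comp (X ^ (b : ZMod n).val).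
`pull_mem`: for m ∣ n: ω^{(m)}_{ā} = stdAddChar (ā : ZMod m) = (stdAddChar (a : ZMod n)) ^ (n/m) : f.comp (X ^ (n/m)).
`normSq_mem`: x * conj x, real nonnegative value ‖x a‖² (`Complex.mul_conj`, `Complex.normSq_eq_norm_sq`).
-/

namespace Pool.Agent.STC

open Polynomial in
private lemma N2_aux {n m : ℕ} [NeZero n] [NeZero m] {x : (ZMod m)ˣ → ℂ} (hx : x ∈ A m)
    (g : (ZMod n)ˣ → (ZMod m)ˣ) (k : ℕ)
    (hg : ∀ a, (ZMod.stdAddChar ((g a : (ZMod m)ˣ) : ZMod m) : ℂ)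
      = (ZMod.stdAddChar ((a : (ZMod n)ˣ) : ZMod n) : ℂ) ^ k) :
    (fun a => x (g a)) ∈ A n := by
  obtain ⟨f, hf⟩ := mem_A.1 hx
  refine mem_A.2 ⟨f.comp (X ^ k), fun a => ?_⟩
  show x (g a) = _
  rw [aeval_comp, map_pow, aeval_X, hf, hg]

theorem dil_mem {n : ℕ} [NeZero n] {x : (ZMod n)ˣ → ℂ} (hx : x ∈ A n) (b : (ZMod n)ˣ) :
    (fun a => x (a * b)) ∈ A n := by
  refine N2_aux hx (fun a => a * b) ((b : ZMod n).val) fun a => ?_
  rw [← AddChar.map_nsmul_eq_pow]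
  congr 1
  rw [nsmul_eq_mul, ZMod.natCast_zmod_val, Units.val_mul, mul_comm]

theorem conj_mem {n : ℕ} [NeZero n] {x : (ZMod n)ˣ → ℂ} (hx : x ∈ A n) :
    (fun a => (starRingEnd ℂ) (x a)) ∈ A n := by
  have h := dil_mem hx (-1)
  have e : (fun a => (starRingEnd ℂ) (x a)) = fun a => x (a * -1) := by
    funext a
    obtain ⟨f, hf⟩ := mem_A.1 hx
    rw [hf, hf]
    have h1 : (ZMod.stdAddChar (((a * -1 : (ZMod n)ˣ)) : ZMod n) : ℂ)
        = (starRingEnd ℂ) (ZMod.stdAddChar ((a : (ZMod n)ˣ) : ZMod n) : ℂ) := by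
      rw [← AddChar.map_neg_eq_conj]
      simp
    rw [h1, Polynomial.aeval_def, Polynomial.aeval_def, Polynomial.hom_eval₂]
    congr 1
    exact RingHom.ext_int _ _
  rw [e]
  exact h

theorem pull_mem {n m : ℕ} [NeZero n] [NeZero m] (h : m ∣ n) {x : (ZMod m)ˣ → ℂ} (hx : x ∈ A m) :
    (fun a => x (ZMod.unitsMap h a)) ∈ A n := by
  refine N2_aux hx (fun a => ZMod.unitsMap h a) (n / m) fun a => ?_
  have hn : (n : ℂ) ≠ 0 := by exact_mod_cast NeZero.ne n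
  have hm : (m : ℂ) ≠ 0 := by exact_mod_cast NeZero.ne m
  obtain ⟨d, rfl⟩ := h
  have hd : (m * d) / m = d := Nat.mul_div_cancel_left d (Nat.pos_of_ne_zero (NeZero.ne m))
  rw [hd]
  have hd0 : (d : ℂ) ≠ 0 := by
    intro h0
    apply hn
    push_cast
    rw [h0, mul_zero]
  have h1 : ((ZMod.unitsMap (Dvd.intro d rfl : m ∣ m * d) a : (ZMod m)ˣ) : ZMod m)
      = (((a : ZMod (m * d)).val : ℤ) : ZMod m) := by
    rw [ZMod.unitsMap_def]
    simp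
  have h2 : ((a : (ZMod (m * d))ˣ) : ZMod (m * d)) = ((((a : ZMod (m * d)).val : ℤ)) : ZMod (m * d)) := by
    simp
  rw [h1]
  conv_rhs => rw [h2]
  rw [ZMod.stdAddChar_coe, ZMod.stdAddChar_coe, ← Complex.exp_nat_mul]
  congr 1
  push_cast
  field_simp

theorem normSq_mem {n : ℕ} [NeZero n] {x : (ZMod n)ˣ → ℂ} (hx : x ∈ A n) :
    (fun a => ((‖x a‖ ^ 2 : ℝ) : ℂ)) ∈ A n := by
  have h := (A n).mul_mem hx (conj_mem hx)
  have e : (fun a => ((‖x a‖ ^ 2 : ℝ) : ℂ)) = x * fun a => (starRingEnd ℂ) (x a) := by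
    funext a
    show _ = x a * (starRingEnd ℂ) (x a)
    rw [Complex.mul_conj, Complex.normSq_eq_norm_sq]
  rw [e]
  exact h

end Pool.Agent.STC
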