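import Pool.Agent.STC.N1
import Pool.Agent.STC.N2
import Pool.Agent.STC.I1

/-!
STC row F1. The mean of the squares of a nonzero cyclotomic integer is at least 1, and at least 1.47 unless all conjugates have absolute value 1.

PROOF. g a := ‖x a‖² > 0 for all a (`eq_zero_of_apply`), ∑ log g ≥ 0: `normSq_mem`, `prod_int`: ∏ g a is a nonzero integer (positive), so ≥ 1;
 `Real.log_prod`. (1) log t ≤ t - 1: ∑ (g - 1) ≥ ∑ log g ≥ 0. (2) If g a = 1 for one a then g = 1 for all a (`eq_zero_of_apply` for the function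
 g - 1 ∈ A n). Otherwise ∑ log |g a - 1| ≥ 0 (`prod_int` for g - 1, |integer| ≥ 1, `Real.log_abs`, `Finset.abs_prod`), and `ineqB` gives
 ∑ g ≥ (147/100) card + (7/10) ∑ log g + (14/15) ∑ log |g-1| ≥ (147/100) card. Divide by the card (`M`).
-/

namespace Pool.Agent.STC

private lemma F1_ne {n : ℕ} [NeZero n] {x : (ZMod n)ˣ → ℂ} (hx : x ∈ A n) (h0 : x ≠ 0)
    (a : (ZMod n)ˣ) : x a ≠ 0 := fun h => h0 (eq_zero_of_apply hx h)

theorem sum_log_nonneg {n : ℕ} [NeZero n] {x : (ZMod n)ˣ → ℂ} (hx : x ∈ A n) (h0 : x ≠ 0) :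
    0 ≤ ∑ a, Real.log ‖x a‖ := by
  obtain ⟨k, hk⟩ := prod_int hx
  have hne : ∏ a, x a ≠ 0 := Finset.prod_ne_zero_iff.2 fun a _ => F1_ne hx h0 a
  have hk0 : k ≠ 0 := by
    rintro rfl
    exact hne (by simpa using hk)
  have h1 : (1 : ℝ) ≤ ∏ a, ‖x a‖ := by
    rw [← norm_prod, hk, Complex.norm_intCast]
    exact_mod_cast Int.one_le_abs hk0
  rw [← Real.log_prod (fun a _ => (norm_pos_iff.2 (F1_ne hx h0 a)).ne')]
  exact Real.log_nonneg h1

theorem one_le_M {n : ℕ} [NeZero n] {x : (ZMod n)ˣ → ℂ} (hx : x ∈ A n) (h0 : x ≠ 0) :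
    1 ≤ M n x := by
  have h := sum_log_nonneg hx h0
  have h2 : ∑ a, Real.log ‖x a‖ * 2 ≤ ∑ a, (‖x a‖ ^ 2 - 1) := by
    refine Finset.sum_le_sum fun a _ => ?_
    have hp : 0 < ‖x a‖ := norm_pos_iff.2 (F1_ne hx h0 a)
    have := Real.log_le_sub_one_of_pos (pow_pos hp 2)
    rw [Real.log_pow] at this
    push_cast at this
    linarith
  rw [← Finset.sum_mul, Finset.sum_sub_distrib] at h2
  simp only [Finset.sum_const, Finset.card_univ, nsmul_eq_mul, mul_one] at h2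
  rw [M, le_div_iff₀ (card_pos' n)]
  linarith

theorem M_dichotomy {n : ℕ} [NeZero n] {x : (ZMod n)ˣ → ℂ} (hx : x ∈ A n) (h0 : x ≠ 0) :
    (∀ a, ‖x a‖ = 1) ∨ 147 / 100 ≤ M n x := by
  have hw : (fun a => ((‖x a‖ ^ 2 : ℝ) : ℂ)) - 1 ∈ A n := sub_mem (normSq_mem hx) (one_mem _)
  have hwa : ∀ a, ((fun a => ((‖x a‖ ^ 2 : ℝ) : ℂ)) - 1) a = ((‖x a‖ ^ 2 - 1 : ℝ) : ℂ) := by
    intro a
    simp
  by_cases h1 : ∃ a, ‖x a‖ = 1
  · left
    obtain ⟨a, ha⟩ := h1
    have hz := eq_zero_of_apply hw (a := a) (by rw [hwa, ha]; simp)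
    intro b
    have hb := congrFun hz b
    rw [hwa, Pi.zero_apply] at hb
    have hb' : ‖x b‖ ^ 2 - 1 = 0 := by exact_mod_cast hb
    have hn := norm_nonneg (x b)
    nlinarith
  · right
    push Not at h1
    have hw0 : (fun a => ((‖x a‖ ^ 2 : ℝ) : ℂ)) - 1 ≠ 0 := by
      intro hz
      have hb := congrFun hz 1
      rw [hwa, Pi.zero_apply] at hb
      have hb' : ‖x 1‖ ^ 2 - 1 = 0 := by exact_mod_cast hb
      have hn := norm_nonneg (x 1)
      exact h1 1 (by nlinarith)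
    have hl := sum_log_nonneg hx h0
    have hl2 := sum_log_nonneg hw hw0
    have hsum : ∑ a, (147 / 100 + 7 / 5 * Real.log ‖x a‖ + 14 / 15 *
        Real.log ‖((fun a => ((‖x a‖ ^ 2 : ℝ) : ℂ)) - 1) a‖) ≤ ∑ a, ‖x a‖ ^ 2 := by
      refine Finset.sum_le_sum fun a _ => ?_
      have hp : 0 < ‖x a‖ := norm_pos_iff.2 (F1_ne hx h0 a)
      have hne : ‖x a‖ ^ 2 ≠ 1 := by
        intro h
        exact h1 a (by nlinarith)
      have := ineqB (‖x a‖ ^ 2) (pow_pos hp 2) hne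
      rw [hwa, Complex.norm_real, Real.norm_eq_abs]
      rw [Real.log_pow] at this
      push_cast at this
      linarith
    simp only [Finset.sum_add_distrib, ← Finset.mul_sum, Finset.sum_const, Finset.card_univ,
      nsmul_eq_mul] at hsum
    rw [M, le_div_iff₀ (card_pos' n)]
    nlinarith

end Pool.Agent.STC
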