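import Pool.Agent.STC.D1
import Pool.Agent.STC.F1

/-!
STC row G1. The step at a prime `p` with `p ^ 2 ∣ n`.

PROOF. y from `split_sq`, M x = ∑ M (y i) < 2.42, each nonzero y i has M ≥ 1 (`one_le_M`), so at most two are nonzero.
 Two nonzero, i ≠ j: M (y i) + M (y j) < 2.42 < 1 + 1.47, so by `M_dichotomy` both have ‖·‖ = 1 everywhere, and ‖x a‖ ≤ 2 for all a
 (stdAddChar values have norm 1: `AddChar.norm_apply`), contradiction to 2 < (x a).re (`Complex.re_le_norm`).
 None: x = 0, contradiction. Exactly one, i: x a = ω_a^i y_i(ā). If i = 0, take x' = y 0. If i ≠ 0: let a be the unit with 2 < (x a).re. The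
 element a' = a + m (unit of ZMod (p m), same reduction mod m) has x a' = e(i/p) x a, e(i/p) = exp(2πi i/p) ≠ 1: for p odd it is not real and x a ≠ 0 is real:
 contradiction to hre; for p = 2 it is -1: (x a').re < -2: contradiction to hge.
-/

namespace Pool.Agent.STC

private lemma G1_norm {n : ℕ} [NeZero n] (k : ZMod n) : ‖(ZMod.stdAddChar k : ℂ)‖ = 1 := by
  rw [ZMod.stdAddChar_apply]
  exact Circle.norm_coe _

/-- A unit `a'` with value `a + m`, and the same reduction. -/
private lemma G1_unit {p m : ℕ} [NeZero m] [NeZero (p * m)] (hpm : p ∣ m) (a : (ZMod (p * m))ˣ) :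
    ∃ a' : (ZMod (p * m))ˣ, (a' : ZMod (p * m)) = a + (m : ZMod (p * m)) ∧
      ZMod.unitsMap (dvd_mul_left m p) a' = ZMod.unitsMap (dvd_mul_left m p) a := by
  have hm2 : (m : ZMod (p * m)) * (m : ZMod (p * m)) = 0 := by
    obtain ⟨q, hq⟩ := hpm
    have : ((m * m : ℕ) : ZMod (p * m)) = 0 := by
      rw [ZMod.natCast_eq_zero_iff]
      exact Nat.mul_dvd_mul_right ⟨q, hq⟩ m
    exact_mod_cast this
  let e : ZMod (p * m) := ((a⁻¹ : (ZMod (p * m))ˣ) : ZMod (p * m)) * (m : ZMod (p * m))
  have he : e * e = 0 := by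
    simp only [e]
    calc _ = ((a⁻¹ : (ZMod (p * m))ˣ) : ZMod (p * m)) ^ 2 *
        ((m : ZMod (p * m)) * (m : ZMod (p * m))) := by ring
      _ = 0 := by rw [hm2, mul_zero]
  let u : (ZMod (p * m))ˣ := ⟨1 + e, 1 - e, by linear_combination -he, by linear_combination -he⟩
  refine ⟨a * u, ?_, ?_⟩
  · have : (a : ZMod (p * m)) * e = m := by
      simp only [e]
      rw [← mul_assoc, Units.mul_inv, one_mul]
    rw [Units.val_mul]
    change (a : ZMod (p * m)) * (1 + e) = _
    rw [mul_add, mul_one, this]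
  · apply Units.ext
    rw [map_mul, Units.val_mul]
    have : ((ZMod.unitsMap (dvd_mul_left m p) u : (ZMod m)ˣ) : ZMod m) =
      ZMod.castHom (dvd_mul_left m p) (ZMod m) (1 + e) := rfl
    rw [this, map_add, map_one, map_mul, map_natCast, ZMod.natCast_self, mul_zero, add_zero,
      mul_one]

theorem step_sq {p m : ℕ} [Fact p.Prime] [NeZero m] [NeZero (p * m)] (hpm : p ∣ m)
    {x : (ZMod (p * m))ˣ → ℂ} (hx : x ∈ A (p * m)) (hre : ∀ a, (x a).im = 0)
    (hge : ∀ a, -2 ≤ (x a).re) (hbig : ∃ a, 2 < (x a).re) (hM : M (p * m) x < 121 / 50) :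
    ∃ x' ∈ A m, (∀ a, x a = x' (ZMod.unitsMap (dvd_mul_left m p) a)) ∧ M m x' = M (p * m) x := by
  classical
  obtain ⟨y, hy, hxy, hMy⟩ := split_sq hpm hx
  obtain ⟨a, ha⟩ := hbig
  let S : Finset (Fin p) := Finset.univ.filter fun i => y i ≠ 0
  have hS : ∀ i, i ∉ S → y i = 0 := by
    intro i hi
    by_contra h
    exact hi (by simp [S, h])
  have hS' : ∀ i, i ∈ S → y i ≠ 0 := fun i hi => by simpa [S] using hi
  have hMS : M (p * m) x = ∑ i ∈ S, M m (y i) := by
    rw [hMy]
    symm
    refine Finset.sum_subset (Finset.subset_univ _) fun i _ hi => ?_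
    rw [hS i hi]
    simp [M]
  have hxS : ∀ a, x a = ∑ i ∈ S, (ZMod.stdAddChar ((a : ZMod (p * m)) *
      ((i : ℕ) : ZMod (p * m))) : ℂ) * y i (ZMod.unitsMap (dvd_mul_left m p) a) := by
    intro a
    rw [hxy a]
    symm
    refine Finset.sum_subset (Finset.subset_univ _) fun i _ hi => ?_
    rw [hS i hi]
    simp
  have hcard : S.card ≤ 2 := by
    have h1 : (S.card : ℝ) ≤ ∑ i ∈ S, M m (y i) := by
      rw [Finset.card_eq_sum_ones, Nat.cast_sum]
      exact Finset.sum_le_sum fun i hi => by
        simpa using one_le_M (hy i) (hS' i hi)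
    have h2 : (S.card : ℝ) < 3 := by linarith
    have h3 : S.card < 3 := by exact_mod_cast h2
    omega
  interval_cases hc : S.card
  · exfalso
    rw [Finset.card_eq_zero] at hc
    rw [hxS a, hc, Finset.sum_empty] at ha
    norm_num at ha
  · rw [Finset.card_eq_one] at hc
    obtain ⟨i, hi⟩ := hc
    by_cases hi0 : (i : ℕ) = 0
    · refine ⟨y i, hy i, fun a => ?_, ?_⟩
      · rw [hxS a, hi, Finset.sum_singleton, hi0, Nat.cast_zero, mul_zero,
          AddChar.map_zero_eq_one, one_mul]
      · rw [hMS, hi, Finset.sum_singleton]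
    · exfalso
      obtain ⟨a', ha', hred⟩ := G1_unit hpm a
      have hx' : x a' = (ZMod.stdAddChar ((m : ZMod (p * m)) * ((i : ℕ) : ZMod (p * m))) : ℂ) *
          x a := by
        rw [hxS a', hxS a, hi, Finset.sum_singleton, Finset.sum_singleton, hred, ha', add_mul,
          AddChar.map_add_eq_mul]
        ring
      set ζ : ℂ := ZMod.stdAddChar ((m : ZMod (p * m)) * ((i : ℕ) : ZMod (p * m))) with hζ
      have hζ1 : ζ ≠ 1 := by
        intro h
        rw [hζ, ← AddChar.map_zero_eq_one (ZMod.stdAddChar (N := p * m))] at h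
        have h2 := ZMod.injective_stdAddChar h
        have h3 : ((m * (i : ℕ) : ℕ) : ZMod (p * m)) = 0 := by exact_mod_cast h2
        rw [ZMod.natCast_eq_zero_iff, mul_comm p m] at h3
        have h4 : p ∣ (i : ℕ) := Nat.dvd_of_mul_dvd_mul_left (Nat.pos_of_ne_zero (NeZero.ne m)) h3
        exact hi0 (Nat.eq_zero_of_dvd_of_lt h4 i.2)
      have hn : ‖ζ‖ = 1 := G1_norm _
      have him := hre a'
      have hre' := hge a'
      rw [hx', Complex.mul_im, hre a, mul_zero, zero_add] at him
      have hζim : ζ.im = 0 := by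
        rcases mul_eq_zero.1 him with h | h
        · exact h
        · linarith
      rw [hx', Complex.mul_re, hre a, mul_zero, sub_zero] at hre'
      have hsq : ζ.re ^ 2 = 1 := by
        have h5 : Complex.normSq ζ = 1 := by rw [Complex.normSq_eq_norm_sq, hn]; norm_num
        rw [Complex.normSq_apply, hζim] at h5
        nlinarith
      have hre1 : ζ.re ≠ 1 := by
        intro h
        exact hζ1 (Complex.ext (by simpa using h) (by simpa using hζim))
      have : ζ.re = -1 := by
        have h6 : (ζ.re - 1) * (ζ.re + 1) = 0 := by ring_nf; linarith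
        rcases mul_eq_zero.1 h6 with h | h
        · exact absurd (by linarith) hre1
        · linarith
      rw [this] at hre'
      linarith
  · exfalso
    rw [Finset.card_eq_two] at hc
    obtain ⟨i, j, hij, hS2⟩ := hc
    have hiS : i ∈ S := by rw [hS2]; simp
    have hjS : j ∈ S := by rw [hS2]; simp
    have hMij : M m (y i) + M m (y j) < 121 / 50 := by
      have h := Finset.sum_pair (f := fun k => M m (y k)) hij
      rw [← hS2, ← hMS] at h
      linarith
    have h1i := one_le_M (hy i) (hS' i hiS)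
    have h1j := one_le_M (hy j) (hS' j hjS)
    have hi1 : ∀ b, ‖y i b‖ = 1 := by
      rcases M_dichotomy (hy i) (hS' i hiS) with h | h
      · exact h
      · linarith
    have hj1 : ∀ b, ‖y j b‖ = 1 := by
      rcases M_dichotomy (hy j) (hS' j hjS) with h | h
      · exact h
      · linarith
    have hxa : ‖x a‖ ≤ 2 := by
      rw [hxS a, hS2, Finset.sum_pair hij]
      refine (norm_add_le _ _).trans ?_
      rw [norm_mul, norm_mul, G1_norm, G1_norm, hi1, hj1]
      norm_num
    have := Complex.re_le_norm (x a)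
    linarith

end Pool.Agent.STC
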