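import Pool.Agent.STC.D2
import Pool.Agent.STC.F1

/-!
STC row G2. The step at a prime `p ≥ 53` with `p ∥ n`.

PROOF. y from `split_prime`; let γ be a value of the family y : ZMod p → _ that is taken most often, s = #{i | y i = γ}, z i = y i - γ, S = {i | z i ≠ 0},
 X = p - s = #S. (a) The number of ordered pairs (i, j) with y i ≠ y j is p² - ∑_classes s_k² ≥ p² - s p = p X, each has M (y i - y j) ≥ 1 (`one_le_M`), so
 p X / 2 ≤ (p-1) M x < 2.42 (p-1), X ≤ 4. (b) Pairs (i, j), (j, i) with i ∈ S, j ∉ S: (p-1) M x ≥ (p-X) ∑_{i∈S} M (z i) ≥ (p-X) X; for p ≥ 53: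
 X = 3: 3 (p-3) > 2.42 (p-1), X = 4: 4 (p-4) > 2.42 (p-1). So X ≤ 2. (c) x a = ∑_{i∈S} stdAddChar (a i) z i (ā) since ∑_{i : ZMod p} stdAddChar (a i) = 0
 for a unit a. X = 2: (p-2) (M z₁ + M z₂) ≤ (p-1) M x < 2.42 (p-1), (52/51) 2.42 < 2.47, so both are of norm one everywhere (`M_dichotomy`) and
 ‖x a‖ ≤ 2: contradiction to hbig. X = 0: x = 0, contradiction. X = 1, S = {i}: x a = stdAddChar (a i) z_i (ā); if i = 0: take x' = z 0, and
 (p-1) M x = 1/2 * 2 (p-1) M (z 0). If i ≠ 0: take b ∈ (ZMod m)ˣ, z_i b ≠ 0 (`eq_zero_of_apply`), and a₁, a₂ with the reductions (1, b), (2, b)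
 (`exists_unit`): x a₂ / x a₁ = stdAddChar (i : ZMod p) is real (hre) of norm 1, so ±1, its order is p odd: stdAddChar i = 1, i = 0: contradiction
 (`ZMod.injective_stdAddChar`).
-/

namespace Pool.Agent.STC

private lemma G2_norm {n : ℕ} [NeZero n] (k : ZMod n) : ‖(ZMod.stdAddChar k : ℂ)‖ = 1 := by
  rw [ZMod.stdAddChar_apply]
  exact Circle.norm_coe _

private lemma G2_M_zero (n : ℕ) [NeZero n] : M n 0 = 0 := by simp [M]

private lemma G2_M_symm (n : ℕ) [NeZero n] (x y : (ZMod n)ˣ → ℂ) : M n (x - y) = M n (y - x) := by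
  unfold M
  congr 1
  refine Finset.sum_congr rfl fun a _ => ?_
  rw [Pi.sub_apply, Pi.sub_apply, norm_sub_rev]

/-- The sum over all pairs, if all values outside `S` are equal to `γ`. -/
private lemma G2_pairs {ι : Type*} [Fintype ι] [DecidableEq ι] (n : ℕ) [NeZero n]
    (y : ι → (ZMod n)ˣ → ℂ) (γ : (ZMod n)ˣ → ℂ) (S : Finset ι) (hS : ∀ i, i ∉ S → y i = γ) :
    ∑ i, ∑ j, M n (y i - y j) =
      2 * (((Fintype.card ι : ℝ) - S.card) * ∑ i ∈ S, M n (y i - γ)) +
        ∑ i ∈ S, ∑ j ∈ S, M n (y i - y j) := by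
  have hc : ((Sᶜ.card : ℕ) : ℝ) = (Fintype.card ι : ℝ) - S.card := by
    rw [Finset.card_compl, Nat.cast_sub (Finset.card_le_univ S)]
  have h1 : ∀ i, ∑ j, M n (y i - y j) =
      ∑ j ∈ S, M n (y i - y j) + (Sᶜ.card : ℕ) * M n (y i - γ) := by
    intro i
    rw [← Finset.sum_add_sum_compl S]
    congr 1
    rw [Finset.sum_congr rfl (g := fun _ => M n (y i - γ)), Finset.sum_const, nsmul_eq_mul]
    intro j hj
    rw [hS j (by simpa using hj)]
  rw [← Finset.sum_add_sum_compl S]
  have h2 : ∑ i ∈ S, ∑ j, M n (y i - y j) = ∑ i ∈ S, ∑ j ∈ S, M n (y i - y j) +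
      (Sᶜ.card : ℕ) * ∑ i ∈ S, M n (y i - γ) := by
    simp only [h1, Finset.sum_add_distrib, ← Finset.mul_sum]
  have h3 : ∑ i ∈ Sᶜ, ∑ j, M n (y i - y j) = (Sᶜ.card : ℕ) * ∑ i ∈ S, M n (y i - γ) := by
    rw [Finset.sum_congr rfl (g := fun _ => ∑ j ∈ S, M n (y j - γ)), Finset.sum_const,
      nsmul_eq_mul]
    intro i hi
    rw [h1, hS i (by simpa using hi), sub_self, G2_M_zero, mul_zero, add_zero]
    exact Finset.sum_congr rfl fun j _ => G2_M_symm n _ _
  rw [h2, h3, hc]
  ring

theorem step_prime {p m : ℕ} [Fact p.Prime] [NeZero m] [NeZero (p * m)] (hpm : Nat.Coprime p m)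
    (hp : 53 ≤ p) {x : (ZMod (p * m))ˣ → ℂ} (hx : x ∈ A (p * m)) (hre : ∀ a, (x a).im = 0)
    (hbig : ∃ a, 2 < (x a).re) (hM : M (p * m) x < 121 / 50) :
    ∃ x' ∈ A m, (∀ a, x a = x' (ZMod.unitsMap (dvd_mul_left m p) a)) ∧ M m x' = M (p * m) x := by
  classical
  obtain ⟨y, hy, hxy, hMy⟩ := split_prime hpm hx
  obtain ⟨a, ha⟩ := hbig
  have hpR : (53 : ℝ) ≤ p := by exact_mod_cast hp
  obtain ⟨i₀, -, hmax⟩ := Finset.exists_max_image (Finset.univ : Finset (ZMod p))
    (fun i => (Finset.univ.filter (fun j => y j = y i)).card) Finset.univ_nonempty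
  set γ := y i₀ with hγ
  let S : Finset (ZMod p) := Finset.univ.filter fun i => y i ≠ γ
  have hS : ∀ i, i ∉ S → y i = γ := by
    intro i hi
    by_contra h
    exact hi (by simp [S, h])
  have hS' : ∀ i, i ∈ S → y i - γ ≠ 0 := fun i hi => sub_ne_zero.2 (by simpa [S] using hi)
  have hzA : ∀ i, y i - γ ∈ A m := fun i => sub_mem (hy i) (hy i₀)
  have hT := G2_pairs m y γ S hS
  rw [ZMod.card] at hT
  -- (a)
  have hrow : ∀ i, (S.card : ℝ) ≤ ∑ j, M m (y i - y j) := by
    intro i
    have h1 : S.card ≤ (Finset.univ.filter (fun j => y j ≠ y i)).card := by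
      have e1 := Finset.card_filter_add_card_filter_not (s := (Finset.univ : Finset (ZMod p)))
        (fun j => y j = y i)
      have e2 := Finset.card_filter_add_card_filter_not (s := (Finset.univ : Finset (ZMod p)))
        (fun j => y j = γ)
      have e3 := hmax i (Finset.mem_univ i)
      have e4 : S.card = (Finset.univ.filter (fun j : ZMod p => ¬ y j = γ)).card := rfl
      have e5 : (Finset.univ.filter (fun j => y j ≠ y i)).card =
        (Finset.univ.filter (fun j : ZMod p => ¬ y j = y i)).card := rfl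
      omega
    calc (S.card : ℝ) ≤ ((Finset.univ.filter (fun j => y j ≠ y i)).card : ℝ) := by exact_mod_cast h1
      _ = ∑ j ∈ Finset.univ.filter (fun j => y j ≠ y i), (1 : ℝ) := by simp
      _ ≤ ∑ j ∈ Finset.univ.filter (fun j => y j ≠ y i), M m (y i - y j) := by
          refine Finset.sum_le_sum fun j hj => ?_
          have hj' : y j ≠ y i := by simpa using hj
          exact one_le_M (sub_mem (hy i) (hy j)) (sub_ne_zero.2 hj'.symm)
      _ ≤ ∑ j, M m (y i - y j) :=
          Finset.sum_le_sum_of_subset_of_nonneg (Finset.subset_univ _)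
            fun j _ _ => M_nonneg m _
  have hXp : (p : ℝ) * S.card ≤ ∑ i, ∑ j, M m (y i - y j) := by
    have := Finset.sum_le_sum fun i (_ : i ∈ (Finset.univ : Finset (ZMod p))) => hrow i
    rw [Finset.sum_const, Finset.card_univ, ZMod.card, nsmul_eq_mul] at this
    exact this
  have hM' : ((p : ℝ) - 1) * M (p * m) x < (p - 1) * (121 / 50) :=
    mul_lt_mul_of_pos_left hM (by linarith)
  have hX4 : S.card ≤ 4 := by
    by_contra h
    push Not at h
    have h5 : (5 : ℝ) ≤ S.card := by exact_mod_cast h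
    nlinarith
  -- (b)
  have hSS : 0 ≤ ∑ i ∈ S, ∑ j ∈ S, M m (y i - y j) :=
    Finset.sum_nonneg fun i _ => Finset.sum_nonneg fun j _ => M_nonneg m _
  have hb : ((p : ℝ) - S.card) * ∑ i ∈ S, M m (y i - γ) ≤ (p - 1) * M (p * m) x := by
    rw [hMy, hT]
    linarith
  have hge : (S.card : ℝ) ≤ ∑ i ∈ S, M m (y i - γ) := by
    rw [Finset.card_eq_sum_ones, Nat.cast_sum]
    exact Finset.sum_le_sum fun i hi => by
      simpa using one_le_M (hzA i) (hS' i hi)
  -- (c)
  have hxS : ∀ a, x a = ∑ i ∈ S,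
      (ZMod.stdAddChar ((ZMod.unitsMap (dvd_mul_right p m) a : ZMod p) * i) : ℂ) *
        (y i - γ) (ZMod.unitsMap (dvd_mul_left m p) a) := by
    intro a
    have h0 : ∑ i : ZMod p,
        (ZMod.stdAddChar ((ZMod.unitsMap (dvd_mul_right p m) a : ZMod p) * i) : ℂ) = 0 := by
      have h := AddChar.sum_mulShift ((ZMod.unitsMap (dvd_mul_right p m) a : (ZMod p)ˣ) : ZMod p)
        (ZMod.isPrimitive_stdAddChar p)
      rw [if_neg (Units.ne_zero _), Nat.cast_zero] at h
      rw [← h]
      exact Finset.sum_congr rfl fun i _ => by rw [mul_comm]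
    have h1 : x a = ∑ i : ZMod p,
        (ZMod.stdAddChar ((ZMod.unitsMap (dvd_mul_right p m) a : ZMod p) * i) : ℂ) *
        (y i - γ) (ZMod.unitsMap (dvd_mul_left m p) a) := by
      simp only [Pi.sub_apply, mul_sub, Finset.sum_sub_distrib]
      rw [← Finset.sum_mul, h0, zero_mul, sub_zero]
      exact hxy a
    rw [h1]
    symm
    refine Finset.sum_subset (Finset.subset_univ _) fun i _ hi => ?_
    rw [hS i hi, sub_self]
    simp
  interval_cases hc : S.card
  · exfalso
    rw [Finset.card_eq_zero] at hc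
    rw [hxS a, hc, Finset.sum_empty] at ha
    norm_num at ha
  · rw [Finset.card_eq_one] at hc
    obtain ⟨i, hi⟩ := hc
    by_cases hi0 : i = 0
    · subst hi0
      refine ⟨y 0 - γ, hzA 0, fun a => ?_, ?_⟩
      · rw [hxS a, hi, Finset.sum_singleton, mul_zero, AddChar.map_zero_eq_one, one_mul]
      · rw [hi, Finset.sum_singleton, Finset.sum_singleton, Finset.sum_singleton, sub_self,
          G2_M_zero] at hT
        rw [hT] at hMy
        have h1 : ((p : ℝ) - 1) * (M (p * m) x - M m (y 0 - γ)) = 0 := by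
          push_cast at hMy
          linarith
        rcases mul_eq_zero.1 h1 with h | h
        · linarith
        · linarith
    · exfalso
      have hiS : i ∈ S := by rw [hi]; simp
      obtain ⟨b, hb0⟩ : ∃ b, (y i - γ) b ≠ 0 := by
        by_contra h
        push Not at h
        exact hS' i hiS (funext h)
      have h2 : (2 : ZMod p) ≠ 0 := by
        intro h
        have h3 : ((2 : ℕ) : ZMod p) = 0 := by exact_mod_cast h
        rw [ZMod.natCast_eq_zero_iff] at h3
        have := Nat.le_of_dvd (by norm_num) h3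
        omega
      obtain ⟨a₁, h11, h12⟩ := exists_unit hpm (1 : (ZMod p)ˣ) b
      obtain ⟨a₂, h21, h22⟩ := exists_unit hpm (Units.mk0 (2 : ZMod p) h2) b
      have hx1 : x a₁ = (ZMod.stdAddChar i : ℂ) * (y i - γ) b := by
        rw [hxS a₁, hi, Finset.sum_singleton, h11, h12, Units.val_one, one_mul]
      have hx2 : x a₂ = (ZMod.stdAddChar i : ℂ) * x a₁ := by
        rw [hxS a₂, hi, Finset.sum_singleton, h21, h22, Units.val_mk0, hx1, two_mul,
          AddChar.map_add_eq_mul]
        ring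
      have hx10 : x a₁ ≠ 0 := by
        rw [hx1]
        refine mul_ne_zero ?_ hb0
        rw [← norm_pos_iff, G2_norm]
        exact one_pos
      have him := hre a₂
      rw [hx2, Complex.mul_im, hre a₁, mul_zero, zero_add] at him
      have hre0 : (x a₁).re ≠ 0 := fun h => hx10 (Complex.ext h (by simpa using hre a₁))
      have hζim : (ZMod.stdAddChar i : ℂ).im = 0 := by
        rcases mul_eq_zero.1 him with h | h
        · exact h
        · exact absurd h hre0
      have hn : Complex.normSq (ZMod.stdAddChar i : ℂ) = 1 := by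
        rw [Complex.normSq_eq_norm_sq, G2_norm]; norm_num
      have hsq : (ZMod.stdAddChar i : ℂ) * (ZMod.stdAddChar i : ℂ) = 1 := by
        rw [Complex.normSq_apply, hζim] at hn
        refine Complex.ext ?_ ?_
        · rw [Complex.mul_re, hζim]
          simpa using hn
        · rw [Complex.mul_im, hζim]
          simp
      rw [← AddChar.map_add_eq_mul, ← AddChar.map_zero_eq_one (ZMod.stdAddChar (N := p))] at hsq
      have h4 := ZMod.injective_stdAddChar hsq
      rw [← two_mul] at h4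
      rcases mul_eq_zero.1 h4 with h | h
      · exact h2 h
      · exact hi0 h
  · exfalso
    rw [Finset.card_eq_two] at hc
    obtain ⟨i, j, hij, hS2⟩ := hc
    have hiS : i ∈ S := by rw [hS2]; simp
    have hjS : j ∈ S := by rw [hS2]; simp
    have h1i := one_le_M (hzA i) (hS' i hiS)
    have h1j := one_le_M (hzA j) (hS' j hjS)
    have hsum := Finset.sum_pair (f := fun k => M m (y k - γ)) hij
    rw [← hS2] at hsum
    rw [hsum] at hb
    push_cast at hb
    have hlt : M m (y i - γ) + M m (y j - γ) < 247 / 100 := by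
      by_contra h
      push Not at h
      have h3 : ((p : ℝ) - 2) * (247 / 100) ≤ (p - 2) * (M m (y i - γ) + M m (y j - γ)) :=
        mul_le_mul_of_nonneg_left h (by linarith)
      linarith
    have hi1 : ∀ b, ‖(y i - γ) b‖ = 1 := by
      rcases M_dichotomy (hzA i) (hS' i hiS) with h | h
      · exact h
      · linarith
    have hj1 : ∀ b, ‖(y j - γ) b‖ = 1 := by
      rcases M_dichotomy (hzA j) (hS' j hjS) with h | h
      · exact h
      · linarith
    have hxa : ‖x a‖ ≤ 2 := by
      rw [hxS a, hS2, Finset.sum_pair hij]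
      refine (norm_add_le _ _).trans ?_
      rw [norm_mul, norm_mul, G2_norm, G2_norm, hi1, hj1]
      norm_num
    have := Complex.re_le_norm (x a)
    linarith
  · exfalso
    push_cast at hb hge
    have h3 : ((p : ℝ) - 3) * 3 ≤ (p - 3) * ∑ i ∈ S, M m (y i - γ) :=
      mul_le_mul_of_nonneg_left hge (by linarith)
    linarith
  · exfalso
    push_cast at hb hge
    have h3 : ((p : ℝ) - 4) * 4 ≤ (p - 4) * ∑ i ∈ S, M m (y i - γ) :=
      mul_le_mul_of_nonneg_left hge (by linarith)
    linarith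

end Pool.Agent.STC
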