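import Pool.Agent.STC.G1
import Pool.Agent.STC.G2

/-!
STC row H1. The induction over the conductor.

PROOF. P = 614889782588491410 = ∏ of the primes ≤ 47. Strong induction over n. If a prime p has p² ∣ n, write n = p * m, p ∣ m, use `step_sq`; the
 hypotheses pass to x' since `ZMod.unitsMap_surjective`, and Set.range x = Set.range x' (surjective). Otherwise n is squarefree; if a prime p ≥ 53 divides n,
 write n = p * m, coprime, use `step_prime`. Otherwise n divides P (squarefree, all prime factors in the list of the primes < 53), and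
 card (range x) ≤ card (ZMod n)ˣ ≤ n ≤ P (`Set.ncard_range_le`-style: `Set.ncard_image_le`/`Set.toFinset_card`, `ZMod.card_units_eq_totient`, `Nat.totient_le`).
 NeZero instances: by `have : NeZero m := ⟨…⟩`; `subst`/`obtain ⟨m, rfl⟩` for n = p * m.
-/

namespace Pool.Agent.STC

private lemma H1_dvd {n : ℕ} (hsq : Squarefree n) (hs : ∀ p, p.Prime → p ∣ n → p < 53) :
    n ∣ 614889782588491410 := by
  have h1 : n = ∏ p ∈ n.primeFactors, p := (Nat.prod_primeFactors_of_squarefree hsq).symm
  have h2 : n.primeFactors ⊆ (Finset.range 53).filter Nat.Prime := by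
    intro p hp
    rw [Finset.mem_filter, Finset.mem_range]
    exact ⟨hs p (Nat.prime_of_mem_primeFactors hp) (Nat.dvd_of_mem_primeFactors hp),
      Nat.prime_of_mem_primeFactors hp⟩
  have h3 : ∏ p ∈ (Finset.range 53).filter Nat.Prime, p = 614889782588491410 := by decide +kernel
  rw [h1, ← h3]
  exact Finset.prod_dvd_prod_of_subset _ _ _ h2

private lemma H1_range {n m : ℕ} [NeZero n] [NeZero m] (h : m ∣ n) {x : (ZMod n)ˣ → ℂ}
    {x' : (ZMod m)ˣ → ℂ} (hx : ∀ a, x a = x' (ZMod.unitsMap h a)) :
    Set.range x = Set.range x' := by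
  have : x = x' ∘ (ZMod.unitsMap h) := funext hx
  rw [this]
  exact (ZMod.unitsMap_surjective h).range_comp x'

private lemma H1_aux : ∀ n : ℕ, ∀ [NeZero n], ∀ {x : (ZMod n)ˣ → ℂ}, x ∈ A n →
    (∀ a, (x a).im = 0) → (∀ a, -2 ≤ (x a).re) → (∃ a, 2 < (x a).re) →
    M n x < 121 / 50 → (Set.range x).ncard ≤ 614889782588491410 := by
  intro n
  induction n using Nat.strong_induction_on with
  | _ n ih =>
    intro hn x hx hre hge hbig hM
    by_cases hsq : Squarefree n
    · by_cases hs : ∀ p, p.Prime → p ∣ n → p < 53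
      · have hd := Nat.le_of_dvd (by norm_num) (H1_dvd hsq hs)
        have h1 : (Set.range x).ncard ≤ Fintype.card (ZMod n)ˣ := by
          rw [← Set.image_univ, ← Nat.card_eq_fintype_card, ← Set.ncard_univ]
          exact Set.ncard_image_le Set.finite_univ
        rw [ZMod.card_units_eq_totient] at h1
        exact h1.trans ((Nat.totient_le n).trans hd)
      · push Not at hs
        obtain ⟨p, hp, ⟨m, rfl⟩, hp53⟩ := hs
        have : Fact p.Prime := ⟨hp⟩
        have : NeZero m := ⟨fun h => hn.out (by rw [h, mul_zero])⟩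
        have hcop : Nat.Coprime p m := Nat.coprime_of_squarefree_mul hsq
        obtain ⟨x', hx', hxx, hMM⟩ := step_prime hcop hp53 hx hre hbig hM
        rw [H1_range _ hxx]
        have hm1 : m < p * m :=
          lt_mul_of_one_lt_left (Nat.pos_of_ne_zero (NeZero.ne m)) hp.one_lt
        have hsurj := ZMod.unitsMap_surjective (dvd_mul_left m p)
        refine ih m hm1 hx' (fun b => ?_) (fun b => ?_) ?_ (by rw [hMM]; exact hM)
        · obtain ⟨a, rfl⟩ := hsurj b
          rw [← hxx a]; exact hre a
        · obtain ⟨a, rfl⟩ := hsurj b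
          rw [← hxx a]; exact hge a
        · obtain ⟨a, ha⟩ := hbig
          exact ⟨_, by rw [hxx a] at ha; exact ha⟩
    · have hex : ∃ p, p.Prime ∧ p * p ∣ n := by
        by_contra h
        push Not at h
        exact hsq (Nat.squarefree_iff_prime_squarefree.2 h)
      obtain ⟨p, hp, hpn⟩ := hex
      obtain ⟨m, rfl⟩ : p ∣ n := (dvd_mul_right p p).trans hpn
      have hpm : p ∣ m := Nat.dvd_of_mul_dvd_mul_left hp.pos hpn
      have : Fact p.Prime := ⟨hp⟩
      have : NeZero m := ⟨fun h => hn.out (by rw [h, mul_zero])⟩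
      obtain ⟨x', hx', hxx, hMM⟩ := step_sq hpm hx hre hge hbig hM
      rw [H1_range _ hxx]
      have hm1 : m < p * m :=
        lt_mul_of_one_lt_left (Nat.pos_of_ne_zero (NeZero.ne m)) hp.one_lt
      have hsurj := ZMod.unitsMap_surjective (dvd_mul_left m p)
      refine ih m hm1 hx' (fun b => ?_) (fun b => ?_) ?_ (by rw [hMM]; exact hM)
      · obtain ⟨a, rfl⟩ := hsurj b
        rw [← hxx a]; exact hre a
      · obtain ⟨a, rfl⟩ := hsurj b
        rw [← hxx a]; exact hge a
      · obtain ⟨a, ha⟩ := hbig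
        exact ⟨_, by rw [hxx a] at ha; exact ha⟩

theorem card_range_le (n : ℕ) [NeZero n] {x : (ZMod n)ˣ → ℂ} (hx : x ∈ A n)
    (hre : ∀ a, (x a).im = 0) (hge : ∀ a, -2 ≤ (x a).re) (hbig : ∃ a, 2 < (x a).re)
    (hM : M n x < 121 / 50) : (Set.range x).ncard ≤ 614889782588491410 :=
  H1_aux n hx hre hge hbig hM

end Pool.Agent.STC
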