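import Mathlib

/-!
STC row I2. The one-variable inequality on [0, 4).

PROOF. h(u) = u + (23/40) log (4-u) + (7/8) log |u-3| + (19/50) log |u²-5u+5|, u²-5u+5 = (u-r)(u-s), r = (5-√5)/2 = 1.38197, s = (5+√5)/2 = 3.61803.
 Tangents: if (u-z)(c-z) > 0 then log |u-z| ≤ log |c-z| + (u-c)/(c-z) (`Real.log_le_sub_one_of_pos` for (u-z)/(c-z)). Summing over z = 4, 3, r, s for
 u, c in the same interval of the complement of {r, 3, s, 4}: h(u) ≤ h(c) + (u-c) h'(c), where
 h'(c) = 1 - (23/40)/(4-c) + (7/8)/(c-3) + (19/50) (2c-5)/(c²-5c+5) is rational for rational c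
 (for the pair r, s: log |u²-5u+5| ≤ log |c²-5c+5| + (u-c)(2c-5)/(c²-5c+5)). The maxima of h on the intervals are
 [0,r): 2.40983 at 0.3978;  (r,3): 2.40963 at 2.1019;  (3,s): 2.00672 at 3.4407;  (s,4): 2.40501 at 3.8497;  the claim is ≤ 2.415.
 Take c = 398/1000, 2102/1000, 344/100, 385/100: |h'(c)| times the length of the interval is < 0.003 (check), and h(c) ≤ 2.411 by numerical bounds of
 log (4-c), log |c-3|, log |c²-5c+5| (rational numbers): clear denominators and compare with a power of e as in row I1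
 (`Real.exp_one_gt_d9`), or bound each log by exp (`Real.exp_bound'`…).
-/

namespace Pool.Agent.STC

/-- The tangent inequality of the logarithm. -/
private lemma I2_tan {y c : ℝ} (h : 0 < y / c) (hc : c ≠ 0) :
    Real.log |y| ≤ Real.log |c| + (y / c - 1) := by
  have hy : y ≠ 0 := by
    rintro rfl
    simp at h
  have h1 := Real.log_le_sub_one_of_pos h
  have h2 : Real.log (y / c) = Real.log |y| - Real.log |c| := by
    rw [← Real.log_abs, abs_div, Real.log_div (abs_ne_zero.2 hy) (abs_ne_zero.2 hc)]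
  rw [h2] at h1
  linarith

/-- All tangents together. -/
private lemma I2_all {u c : ℝ} (h4 : 0 < (4 - u) / (4 - c)) (h3 : 0 < (u - 3) / (c - 3))
    (hr : 0 < (u - (5 - Real.sqrt 5) / 2) / (c - (5 - Real.sqrt 5) / 2))
    (hs : 0 < (u - (5 + Real.sqrt 5) / 2) / (c - (5 + Real.sqrt 5) / 2)) :
    u + 23 / 40 * Real.log |4 - u| + 7 / 8 * Real.log |u - 3| +
      19 / 50 * Real.log |u ^ 2 - 5 * u + 5| ≤
    u + 23 / 40 * (Real.log |4 - c| + (c - u) / (4 - c)) +
      7 / 8 * (Real.log |c - 3| + (u - c) / (c - 3)) +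
      19 / 50 * (Real.log |c ^ 2 - 5 * c + 5| + (u - c) * (2 * c - 5) / (c ^ 2 - 5 * c + 5)) := by
  have c4 : 4 - c ≠ 0 := by
    intro h
    rw [h, div_zero] at h4
    exact lt_irrefl _ h4
  have c3 : c - 3 ≠ 0 := by
    intro h
    rw [h, div_zero] at h3
    exact lt_irrefl _ h3
  have cr : c - (5 - Real.sqrt 5) / 2 ≠ 0 := by
    intro h
    rw [h, div_zero] at hr
    exact lt_irrefl _ hr
  have cs : c - (5 + Real.sqrt 5) / 2 ≠ 0 := by
    intro h
    rw [h, div_zero] at hs
    exact lt_irrefl _ hs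
  have s5 : Real.sqrt 5 * Real.sqrt 5 = 5 := Real.mul_self_sqrt (by norm_num)
  have ur : u - (5 - Real.sqrt 5) / 2 ≠ 0 := by
    intro h
    rw [h, zero_div] at hr
    exact lt_irrefl _ hr
  have us : u - (5 + Real.sqrt 5) / 2 ≠ 0 := by
    intro h
    rw [h, zero_div] at hs
    exact lt_irrefl _ hs
  have qu : u ^ 2 - 5 * u + 5 = (u - (5 - Real.sqrt 5) / 2) * (u - (5 + Real.sqrt 5) / 2) := by
    nlinarith [s5]
  have qc : c ^ 2 - 5 * c + 5 = (c - (5 - Real.sqrt 5) / 2) * (c - (5 + Real.sqrt 5) / 2) := by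
    nlinarith [s5]
  have t4 := I2_tan h4 c4
  have t3 := I2_tan h3 c3
  have tr := I2_tan hr cr
  have ts := I2_tan hs cs
  have e4 : (4 - u) / (4 - c) - 1 = (c - u) / (4 - c) := by
    field_simp
    ring
  have e3 : (u - 3) / (c - 3) - 1 = (u - c) / (c - 3) := by
    field_simp
    ring
  have eq1 : (u - (5 - Real.sqrt 5) / 2) / (c - (5 - Real.sqrt 5) / 2) - 1
      + ((u - (5 + Real.sqrt 5) / 2) / (c - (5 + Real.sqrt 5) / 2) - 1)
      = (u - c) * (2 * c - 5) / (c ^ 2 - 5 * c + 5) := by
    rw [qc, div_sub_one cr, div_sub_one cs, div_add_div _ _ cr cs]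
    congr 1
    ring
  have l1 : Real.log |u ^ 2 - 5 * u + 5| = Real.log |u - (5 - Real.sqrt 5) / 2|
      + Real.log |u - (5 + Real.sqrt 5) / 2| := by
    rw [qu, abs_mul, Real.log_mul (abs_ne_zero.2 ur) (abs_ne_zero.2 us)]
  have l2 : Real.log |c ^ 2 - 5 * c + 5| = Real.log |c - (5 - Real.sqrt 5) / 2|
      + Real.log |c - (5 + Real.sqrt 5) / 2| := by
    conv_lhs => rw [qc]
    rw [abs_mul, Real.log_mul (abs_ne_zero.2 cr) (abs_ne_zero.2 cs)]
  rw [e4] at t4
  rw [e3] at t3
  rw [← eq1, l1, l2]
  linarith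

/-- Numerical bounds from powers of `e`. -/
private lemma I2_num {a b d : ℝ} (ha : 0 < a) (hb : 0 < b) (hd : 0 < d) (N i j : ℕ) (hN : N = i * j)
    (h0 : a ^ 115 * b ^ 175 * d ^ 76 ≤ (2.7182818283 ^ i) ^ j) :
    115 * Real.log a + 175 * Real.log b + 76 * Real.log d ≤ N := by
  have h : a ^ 115 * b ^ 175 * d ^ 76 ≤ 2.7182818283 ^ N := by
    rw [hN, pow_mul]
    exact h0
  have h1 : Real.log (a ^ 115 * b ^ 175 * d ^ 76) ≤ (N : ℝ) := by
    rw [Real.log_le_iff_le_exp (by positivity), ← Real.exp_one_pow]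
    exact le_trans h (pow_le_pow_left₀ (by norm_num) Real.exp_one_gt_d9.le N)
  rw [Real.log_mul (by positivity) (by positivity), Real.log_mul (by positivity) (by positivity),
    Real.log_pow, Real.log_pow, Real.log_pow] at h1
  push_cast at h1
  exact h1

private lemma I2_num' {a b d : ℝ} (ha : 0 < a) (hb : 0 < b) (hd : 0 < d) (N i j : ℕ) (hN : N = i * j)
    (h0 : a ^ 115 * b ^ 175 * d ^ 76 * (2.7182818286 ^ i) ^ j ≤ 1) :
    115 * Real.log a + 175 * Real.log b + 76 * Real.log d ≤ - N := by
  have h : a ^ 115 * b ^ 175 * d ^ 76 * 2.7182818286 ^ N ≤ 1 := by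
    rw [hN, pow_mul]
    exact h0
  have h1 : Real.log (a ^ 115 * b ^ 175 * d ^ 76) ≤ - (N : ℝ) := by
    rw [Real.log_le_iff_le_exp (by positivity), Real.exp_neg, ← Real.exp_one_pow]
    have h2 : Real.exp 1 ^ N ≤ 2.7182818286 ^ N :=
      pow_le_pow_left₀ (Real.exp_pos 1).le Real.exp_one_lt_d9.le N
    rw [← one_div, le_div_iff₀ (pow_pos (Real.exp_pos 1) N)]
    refine le_trans (mul_le_mul_of_nonneg_left h2 (by positivity)) h
  rw [Real.log_mul (by positivity) (by positivity), Real.log_mul (by positivity) (by positivity),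
    Real.log_pow, Real.log_pow, Real.log_pow] at h1
  push_cast at h1
  exact h1

theorem ineqA (u : ℝ) (h0 : 0 ≤ u) (h4 : u < 4) (h3 : u ≠ 3) (h5 : u ^ 2 - 5 * u + 5 ≠ 0) :
    u + 23 / 40 * Real.log |4 - u| + 7 / 8 * Real.log |u - 3| +
      19 / 50 * Real.log |u ^ 2 - 5 * u + 5| ≤ 483 / 200 := by
  have s5 : Real.sqrt 5 * Real.sqrt 5 = 5 := Real.mul_self_sqrt (by norm_num)
  have s0 : 0 ≤ Real.sqrt 5 := Real.sqrt_nonneg 5
  have sl : 2.236 < Real.sqrt 5 := by nlinarith
  have su : Real.sqrt 5 < 2.2361 := by nlinarith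
  have qu : u ^ 2 - 5 * u + 5 = (u - (5 - Real.sqrt 5) / 2) * (u - (5 + Real.sqrt 5) / 2) := by
    nlinarith [s5]
  rw [qu] at h5
  have hr : u ≠ (5 - Real.sqrt 5) / 2 := by
    intro h
    apply h5
    rw [← h]
    ring
  have hs : u ≠ (5 + Real.sqrt 5) / 2 := by
    intro h
    apply h5
    rw [← h]
    ring
  rcases lt_or_gt_of_ne hr with g1 | g1
  · -- u < r
    have k := I2_all (u := u) (c := 398 / 1000)
      (div_pos (by linarith) (by norm_num))
      (div_pos_of_neg_of_neg (by linarith) (by norm_num))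
      (div_pos_of_neg_of_neg (by linarith) (by linarith))
      (div_pos_of_neg_of_neg (by linarith) (by linarith))
    refine le_trans k ?_
    have a1 : |(4 : ℝ) - 398 / 1000| = 3602 / 1000 := by
      rw [abs_of_pos (by norm_num)]; norm_num
    have a2 : |(398 : ℝ) / 1000 - 3| = 2602 / 1000 := by
      rw [abs_of_neg (by norm_num)]; norm_num
    have a3 : |(398 / 1000 : ℝ) ^ 2 - 5 * (398 / 1000) + 5| = 3168404 / 1000000 := by
      rw [abs_of_pos (by norm_num)]; norm_num
    rw [a1, a2, a3]
    have n := I2_num (a := 3602 / 1000) (b := 2602 / 1000) (d := 3168404 / 1000000)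
      (by norm_num) (by norm_num) (by norm_num) 403 13 31 (by norm_num) (by norm_num)
    push_cast at n
    norm_num
    norm_num at n
    linarith
  · rcases lt_or_gt_of_ne h3 with g2 | g2
    · have k := I2_all (u := u) (c := 2102 / 1000)
        (div_pos (by linarith) (by norm_num))
        (div_pos_of_neg_of_neg (by linarith) (by norm_num))
        (div_pos (by linarith) (by linarith))
        (div_pos_of_neg_of_neg (by linarith) (by linarith))
      refine le_trans k ?_
      have a1 : |(4 : ℝ) - 2102 / 1000| = 1898 / 1000 := by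
        rw [abs_of_pos (by norm_num)]; norm_num
      have a2 : |(2102 : ℝ) / 1000 - 3| = 898 / 1000 := by
        rw [abs_of_neg (by norm_num)]; norm_num
      have a3 : |(2102 / 1000 : ℝ) ^ 2 - 5 * (2102 / 1000) + 5| = 1091596 / 1000000 := by
        rw [abs_of_neg (by norm_num)]; norm_num
      rw [a1, a2, a3]
      have n := I2_num (a := 1898 / 1000) (b := 898 / 1000) (d := 1091596 / 1000000)
        (by norm_num) (by norm_num) (by norm_num) 62 2 31 (by norm_num) (by norm_num)
      push_cast at n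
      norm_num
      norm_num at n
      linarith
    · rcases lt_or_gt_of_ne hs with g3 | g3
      · have k := I2_all (u := u) (c := 344 / 100)
          (div_pos (by linarith) (by norm_num))
          (div_pos (by linarith) (by norm_num))
          (div_pos (by linarith) (by linarith))
          (div_pos_of_neg_of_neg (by linarith) (by linarith))
        refine le_trans k ?_
        have a1 : |(4 : ℝ) - 344 / 100| = 56 / 100 := by
          rw [abs_of_pos (by norm_num)]; norm_num
        have a2 : |(344 : ℝ) / 100 - 3| = 44 / 100 := by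
          rw [abs_of_pos (by norm_num)]; norm_num
        have a3 : |(344 / 100 : ℝ) ^ 2 - 5 * (344 / 100) + 5| = 3664 / 10000 := by
          rw [abs_of_neg (by norm_num)]; norm_num
        rw [a1, a2, a3]
        have n := I2_num' (a := 56 / 100) (b := 44 / 100) (d := 3664 / 10000)
          (by norm_num) (by norm_num) (by norm_num) 220 10 22 (by norm_num) (by norm_num)
        push_cast at n
        norm_num
        norm_num at n
        linarith
      · have k := I2_all (u := u) (c := 385 / 100)
          (div_pos (by linarith) (by norm_num))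
          (div_pos (by linarith) (by norm_num))
          (div_pos (by linarith) (by linarith))
          (div_pos (by linarith) (by linarith))
        refine le_trans k ?_
        have a1 : |(4 : ℝ) - 385 / 100| = 15 / 100 := by
          rw [abs_of_pos (by norm_num)]; norm_num
        have a2 : |(385 : ℝ) / 100 - 3| = 85 / 100 := by
          rw [abs_of_pos (by norm_num)]; norm_num
        have a3 : |(385 / 100 : ℝ) ^ 2 - 5 * (385 / 100) + 5| = 5725 / 10000 := by
          rw [abs_of_pos (by norm_num)]; norm_num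
        rw [a1, a2, a3]
        have n := I2_num' (a := 15 / 100) (b := 85 / 100) (d := 5725 / 10000)
          (by norm_num) (by norm_num) (by norm_num) 288 16 18 (by norm_num) (by norm_num)
        push_cast at n
        norm_num
        norm_num at n
        linarith

/-- For `u > 4` (every logarithm is at most `log u` or `2 log u`, and `log u ≤ u / e`). -/
theorem ineqA' (u : ℝ) (h4 : 4 < u) :
    u + 23 / 40 * Real.log |4 - u| + 7 / 8 * Real.log |u - 3| +
      19 / 50 * Real.log |u ^ 2 - 5 * u + 5| ≤ 2 * u := by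
  have a1 : |4 - u| = u - 4 := by
    rw [abs_of_neg (by linarith)]; ring
  have a2 : |u - 3| = u - 3 := abs_of_pos (by linarith)
  have a3 : |u ^ 2 - 5 * u + 5| = u ^ 2 - 5 * u + 5 := abs_of_pos (by nlinarith)
  rw [a1, a2, a3]
  have l1 : Real.log (u - 4) ≤ Real.log u := Real.log_le_log (by linarith) (by linarith)
  have l2 : Real.log (u - 3) ≤ Real.log u := Real.log_le_log (by linarith) (by linarith)
  have l3 : Real.log (u ^ 2 - 5 * u + 5) ≤ 2 * Real.log u := by
    have h : Real.log (u ^ 2 - 5 * u + 5) ≤ Real.log (u ^ 2) :=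
      Real.log_le_log (by nlinarith) (by linarith)
    rw [Real.log_pow] at h
    push_cast at h
    exact h
  have l4 : Real.log u ≤ u / 2.7 := by
    have h1 := Real.log_le_sub_one_of_pos (show 0 < u / Real.exp 1 by positivity)
    rw [Real.log_div (by linarith) (Real.exp_pos 1).ne', Real.log_exp] at h1
    have h2 : u / Real.exp 1 ≤ u / 2.7 := by
      apply div_le_div_of_nonneg_left (by linarith) (by norm_num)
      have := Real.exp_one_gt_d9
      linarith
    linarith
  have f : u / 2.7 = 10 / 27 * u := by ring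
  rw [f] at l4
  linarith

end Pool.Agent.STC
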