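import Pool.Agent.STC.F1
import Pool.Agent.STC.I2

/-!
STC row H2. The mean of the squares is small if most conjugates lie in [-2, 2].

PROOF. u a := (x a).re², x a real. q₁ = 4 - x², q₂ = x² - 3, q₃ = x⁴ - 5x² + 5 ∈ A n (subring, `int_mem_A`); at the a₀ with x a₀ > 2 they are not zero
 (u > 4: u²-5u+5 ≥ 1 > 0), so nowhere zero (`eq_zero_of_apply`), and ∑_a log |q_k(a)| ≥ 0 (`sum_log_nonneg`; ‖q_k a‖ = |real value|).
 By `ineqA` (a with |x a| ≤ 2, u < 4 as q₁ ≠ 0; here |x a| ≤ 2 means (x a).re ≤ 2 by hge) and `ineqA'` ((x a).re > 2, u ≤ L²):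
 ∑ u ≤ ∑ (u + 23/40 log|q₁| + 7/8 log|q₂| + 19/50 log|q₃|) ≤ (483/200) card + 2 L² #{a | 2 < (x a).re}. Divide by the card.
-/

namespace Pool.Agent.STC

/-- an element of `A n` with real values `g a`, nonzero at one place: nowhere zero, and the sum of the logarithms is nonnegative -/
theorem H2_log {n : ℕ} [NeZero n] {q : (ZMod n)ˣ → ℂ} (hq : q ∈ A n) (g : (ZMod n)ˣ → ℝ)
    (hg : ∀ a, q a = (g a : ℂ)) (a₀ : (ZMod n)ˣ) (h0 : g a₀ ≠ 0) :
    (∀ a, g a ≠ 0) ∧ 0 ≤ ∑ a, Real.log |g a| := by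
  have hq0 : q ≠ 0 := by
    intro h
    apply h0
    have h1 : q a₀ = 0 := congrFun h a₀
    rw [hg a₀] at h1
    exact_mod_cast h1
  constructor
  · intro a ha
    apply hq0
    refine eq_zero_of_apply hq (a := a) ?_
    rw [hg a, ha]
    simp
  · have h1 := sum_log_nonneg hq hq0
    have h2 : ∀ a, Real.log ‖q a‖ = Real.log |g a| := by
      intro a
      rw [hg a, Complex.norm_real, Real.norm_eq_abs]
    rw [Finset.sum_congr rfl fun a _ => h2 a] at h1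
    exact h1

open Classical in
theorem M_le {n : ℕ} [NeZero n] {x : (ZMod n)ˣ → ℂ} (hx : x ∈ A n) (hre : ∀ a, (x a).im = 0)
    (hge : ∀ a, -2 ≤ (x a).re) (hbig : ∃ a, 2 < (x a).re) (L : ℝ) (hL : ∀ a, (x a).re ≤ L) :
    M n x ≤ 483 / 200 + 2 * L ^ 2 * (Finset.univ.filter fun a => 2 < (x a).re).card /
      Fintype.card (ZMod n)ˣ := by
  obtain ⟨a₀, ha₀⟩ := hbig
  have hxr : ∀ a, x a = (((x a).re : ℝ) : ℂ) := by
    intro a
    apply Complex.ext
    · simp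
    · simp [hre a]
  obtain ⟨r, hr⟩ : ∃ r : (ZMod n)ˣ → ℝ, ∀ a, r a = (x a).re := ⟨_, fun _ => rfl⟩
  simp only [← hr] at hxr hge ha₀ hL ⊢
  have hx2 : x ^ 2 ∈ A n := (A n).pow_mem hx 2
  have hx4 : x ^ 4 ∈ A n := (A n).pow_mem hx 4
  have hu0 : 4 < r a₀ ^ 2 := by nlinarith
  -- the three auxiliary elements
  have hq1 : (fun _ => ((4 : ℤ) : ℂ)) - x ^ 2 ∈ A n := (A n).sub_mem (int_mem_A n 4) hx2
  have hq2 : x ^ 2 - (fun _ => ((3 : ℤ) : ℂ)) ∈ A n := (A n).sub_mem hx2 (int_mem_A n 3)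
  have hq3 : x ^ 4 - (fun _ => ((5 : ℤ) : ℂ)) * x ^ 2 + (fun _ => ((5 : ℤ) : ℂ)) ∈ A n :=
    (A n).add_mem ((A n).sub_mem hx4 ((A n).mul_mem (int_mem_A n 5) hx2)) (int_mem_A n 5)
  obtain ⟨z1, l1⟩ := H2_log hq1 (fun a => 4 - r a ^ 2) (fun a => by
    show ((4 : ℤ) : ℂ) - x a ^ 2 = _
    rw [hxr a]; push_cast; ring) a₀ (by
      show 4 - r a₀ ^ 2 ≠ 0
      intro h; linarith)
  obtain ⟨z2, l2⟩ := H2_log hq2 (fun a => r a ^ 2 - 3) (fun a => by
    show x a ^ 2 - ((3 : ℤ) : ℂ) = _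
    rw [hxr a]; push_cast; ring) a₀ (by
      show r a₀ ^ 2 - 3 ≠ 0
      intro h; linarith)
  obtain ⟨z3, l3⟩ := H2_log hq3 (fun a => (r a ^ 2) ^ 2 - 5 * r a ^ 2 + 5) (fun a => by
    show x a ^ 4 - ((5 : ℤ) : ℂ) * x a ^ 2 + ((5 : ℤ) : ℂ) = _
    rw [hxr a]; push_cast; ring) a₀ (by
      show (r a₀ ^ 2) ^ 2 - 5 * r a₀ ^ 2 + 5 ≠ 0
      intro h; nlinarith)
  -- pointwise bound
  have hpt : ∀ a, r a ^ 2 + 23 / 40 * Real.log |4 - r a ^ 2| + 7 / 8 * Real.log |r a ^ 2 - 3| +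
      19 / 50 * Real.log |(r a ^ 2) ^ 2 - 5 * r a ^ 2 + 5| ≤
      483 / 200 + if 2 < r a then 2 * L ^ 2 else 0 := by
    intro a
    by_cases h : 2 < r a
    · rw [if_pos h]
      have h4 : 4 < r a ^ 2 := by nlinarith
      have h5 := ineqA' (r a ^ 2) h4
      have h6 : r a ^ 2 ≤ L ^ 2 := by
        have := hL a
        nlinarith
      linarith
    · rw [if_neg h]
      push Not at h
      have h1 := hge a
      have h2 : r a ^ 2 ≤ 4 := by nlinarith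
      have h3 : r a ^ 2 ≠ 4 := by
        intro h4
        apply z1 a
        show 4 - r a ^ 2 = 0
        linarith
      have h4 : r a ^ 2 < 4 := lt_of_le_of_ne h2 h3
      have h5 : r a ^ 2 ≠ 3 := by
        intro h6
        apply z2 a
        show r a ^ 2 - 3 = 0
        linarith
      have h6 := ineqA (r a ^ 2) (sq_nonneg _) h4 h5 (z3 a)
      linarith
  have hsum := Finset.sum_le_sum fun a (_ : a ∈ (Finset.univ : Finset (ZMod n)ˣ)) => hpt a
  simp only [Finset.sum_add_distrib, ← Finset.mul_sum] at hsum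
  have e1 : (∑ a : (ZMod n)ˣ, if 2 < r a then 2 * L ^ 2 else 0) =
      2 * L ^ 2 * ((Finset.univ.filter fun a => 2 < r a).card : ℝ) := by
    rw [← Finset.sum_filter, Finset.sum_const, nsmul_eq_mul]
    ring
  have e2 : (∑ _a : (ZMod n)ˣ, (483 / 200 : ℝ)) = 483 / 200 * Fintype.card (ZMod n)ˣ := by
    rw [Finset.sum_const, nsmul_eq_mul, Finset.card_univ]
    ring
  rw [e1, e2] at hsum
  have e3 : ∑ a, ‖x a‖ ^ 2 = ∑ a, r a ^ 2 := by
    refine Finset.sum_congr rfl fun a _ => ?_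
    rw [hxr a, Complex.norm_real, Real.norm_eq_abs, sq_abs]
  have hc := card_pos' n
  unfold M
  rw [e3]
  rw [show (483 / 200 : ℝ) + 2 * L ^ 2 * ((Finset.univ.filter fun a => 2 < r a).card : ℝ) /
      Fintype.card (ZMod n)ˣ = (483 / 200 * Fintype.card (ZMod n)ˣ +
        2 * L ^ 2 * ((Finset.univ.filter fun a => 2 < r a).card : ℝ)) / Fintype.card (ZMod n)ˣ by
    rw [add_div, mul_div_cancel_right₀ _ hc.ne']]
  gcongr
  linarith

end Pool.Agent.STC
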