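import Pool.Agent.STC.N1
import Pool.Agent.STC.N2

/-!
STC row K1. The values of x and the roots of the minimal polynomial.

PROOF. `root_of_apply`: β = x 1 is integral over ℤ (polynomial in a root of unity), g := minpoly ℤ β; the function a ↦ aeval (x a) g is in A n (polynomial in x, a
 subring: `Subring` closed; `Polynomial.aeval_mem`-style or induction) and is 0 at a = 1, so it is 0 (`eq_zero_of_apply`); minpoly ℚ β is the image of
 minpoly ℤ β (`minpoly.isIntegrallyClosed_eq_field_fractions'`). The minpoly over ℚ of the real β and of the complex β agree (`minpoly.algebraMap_eq`).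
`natDegree_le_card`: every complex root v of minpoly ℚ β is x a for some a: ω = stdAddChar 1, β = aeval ω f. There is a ℚ-algebra map ℚ⟮β⟯ → ℂ with β ↦ v; extend it to
 ℚ⟮ω⟯ (or to the algebraic closure; `IsAlgClosed.lift`/`IntermediateField.exists_algHom_adjoin_of_splits`, `exists_algHom_of_splits'`); the image of ω is a primitive
 n-th root, = stdAddChar a for a unit a; v = aeval (ω_a) f = x a. minpoly is separable (char 0), so natDegree = number of complex roots ≤ card (range x).
`fibre`: H = {h | x h = x 1}. x a = x b ⟺ x (a b⁻¹) = x 1: for c = b⁻¹, the function a' ↦ x (a' d) - x a' ∈ A n (`dil_mem`) is zero at one place iff it is zero everywhere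
 (`eq_zero_of_apply`). So all fibres of x are cosets of H, of the same cardinality h, card (ZMod n)ˣ = h · card (range x), and
 #{a | 4 < (x a).re} = h · #{v ∈ range x | 4 < v.re} ≤ h · #{real roots y > 4}.
-/

namespace Pool.Agent.STC

open Polynomial

theorem K1_integral_root (n : ℕ) [NeZero n] (a : ZMod n) :
    IsIntegral ℤ (ZMod.stdAddChar a : ℂ) := by
  have h1 : (ZMod.stdAddChar a : ℂ) ^ n = 1 := by
    rw [← AddChar.map_nsmul_eq_pow, nsmul_eq_mul, ZMod.natCast_self, zero_mul,
      AddChar.map_zero_eq_one]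
  refine ⟨X ^ n - 1, monic_X_pow_sub_C 1 (NeZero.ne n), ?_⟩
  simp [h1]

theorem K1_integral {n : ℕ} [NeZero n] {x : (ZMod n)ˣ → ℂ} (hx : x ∈ A n) (a : (ZMod n)ˣ) :
    IsIntegral ℤ (x a) := by
  obtain ⟨f, hf⟩ := mem_A.1 hx
  rw [hf a]
  exact adjoin_le_integralClosure (K1_integral_root n (a : ZMod n)) (aeval_mem_adjoin_singleton _ _)

theorem K1_integral_real {n : ℕ} [NeZero n] {x : (ZMod n)ˣ → ℂ} (hx : x ∈ A n) {β : ℝ}
    (hβ : x 1 = β) : IsIntegral ℤ β := by
  have h1 := K1_integral hx 1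
  rw [hβ] at h1
  exact (isIntegral_algebraMap_iff (A := ℝ) (B := ℂ) (FaithfulSMul.algebraMap_injective ℝ ℂ)).1 h1

theorem root_of_apply {n : ℕ} [NeZero n] {x : (ZMod n)ˣ → ℂ} (hx : x ∈ A n) {β : ℝ}
    (hβ : x 1 = β) (a : (ZMod n)ˣ) : aeval (x a) (minpoly ℚ β) = 0 := by
  have hint := K1_integral_real hx hβ
  rw [minpoly.isIntegrallyClosed_eq_field_fractions' ℚ hint, aeval_map_algebraMap]
  have hmem : (fun a => aeval (x a) (minpoly ℤ β)) ∈ A n := by
    obtain ⟨f, hf⟩ := mem_A.1 hx
    exact mem_A.2 ⟨(minpoly ℤ β).comp f, fun a => by rw [aeval_comp, hf a]⟩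
  have h0 : (fun a => aeval (x a) (minpoly ℤ β)) 1 = 0 := by
    change aeval (x 1) (minpoly ℤ β) = 0
    rw [hβ, show ((β : ℝ) : ℂ) = algebraMap ℝ ℂ β from rfl, aeval_algebraMap_apply, minpoly.aeval,
      map_zero]
  have h1 := eq_zero_of_apply hmem h0
  exact congrFun h1 a

theorem natDegree_le_card {n : ℕ} [NeZero n] {x : (ZMod n)ˣ → ℂ} (hx : x ∈ A n) {β : ℝ}
    (hβ : x 1 = β) : (minpoly ℚ β).natDegree ≤ (Set.range x).ncard := by
  classical
  have hint := K1_integral_real hx hβ
  have hintQ : IsIntegral ℚ β := hint.tower_top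
  have hmp : minpoly ℚ (β : ℂ) = minpoly ℚ β :=
    minpoly.algebraMap_eq (B := ℝ) (B' := ℂ) (FaithfulSMul.algebraMap_injective ℝ ℂ) β
  obtain ⟨f, hf⟩ := mem_A.1 hx
  have hprim : IsPrimitiveRoot (ZMod.stdAddChar (1 : ZMod n) : ℂ) n := by
    have := Complex.isPrimitiveRoot_exp n (NeZero.ne n)
    rwa [show (ZMod.stdAddChar (1 : ZMod n) : ℂ) = Complex.exp (2 * Real.pi * Complex.I / n) by
      have h := ZMod.stdAddChar_coe (N := n) 1
      rw [Int.cast_one, Int.cast_one, mul_one] at h
      exact h]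
  set ω : ℂ := (ZMod.stdAddChar (1 : ZMod n) : ℂ) with hω
  have hβf : (β : ℂ) = aeval ω (f.map (algebraMap ℤ ℚ)) := by
    rw [aeval_map_algebraMap, ← hβ, hf 1, Units.val_one]
  have hsub : (minpoly ℚ β).rootSet ℂ ⊆ Set.range x := by
    intro v hv
    have hv0 : aeval v (minpoly ℚ (β : ℂ)) = 0 := by
      rw [hmp]
      exact (mem_rootSet.1 hv).2
    have hK : ∀ s ∈ ({ω} : Set ℂ), IsIntegral ℚ s ∧
        ((minpoly ℚ s).map (algebraMap ℚ ℂ)).Splits := by
      intro s hs
      rw [Set.mem_singleton_iff] at hs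
      subst hs
      exact ⟨(K1_integral_root n 1).tower_top, IsAlgClosed.splits _⟩
    have hx0 : (β : ℂ) ∈ IntermediateField.adjoin ℚ ({ω} : Set ℂ) := by
      rw [hβf]
      exact IntermediateField.algebra_adjoin_le_adjoin _ _ (aeval_mem_adjoin_singleton _ _)
    obtain ⟨φ, hφ⟩ := IntermediateField.exists_algHom_adjoin_of_splits_of_aeval hK hx0 hv0
    have hω0 : ω ∈ IntermediateField.adjoin ℚ ({ω} : Set ℂ) :=
      IntermediateField.mem_adjoin_simple_self ℚ ω
    have hprim2 : IsPrimitiveRoot (φ ⟨ω, hω0⟩) n := by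
      have h1 : IsPrimitiveRoot (⟨ω, hω0⟩ : IntermediateField.adjoin ℚ ({ω} : Set ℂ)) n := by
        have h2 : IsPrimitiveRoot ((IntermediateField.adjoin ℚ ({ω} : Set ℂ)).val ⟨ω, hω0⟩) n := hprim
        exact h2.of_map_of_injective (Subtype.val_injective)
      exact h1.map_of_injective φ.toRingHom.injective
    obtain ⟨i, hi, hic, hie⟩ := (Complex.isPrimitiveRoot_iff _ n (NeZero.ne n)).1 hprim2
    refine ⟨ZMod.unitOfCoprime i hic, ?_⟩
    have e1 : (ZMod.stdAddChar ((ZMod.unitOfCoprime i hic : (ZMod n)ˣ) : ZMod n) : ℂ) = φ ⟨ω, hω0⟩ := by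
      rw [← hie, ZMod.coe_unitOfCoprime]
      have h := ZMod.stdAddChar_coe (N := n) (i : ℤ)
      rw [Int.cast_natCast, Int.cast_natCast] at h
      rw [h]
      congr 1
      ring
    rw [hf, e1, ← hφ]
    have e2 : (⟨(β : ℂ), hx0⟩ : IntermediateField.adjoin ℚ ({ω} : Set ℂ)) =
        aeval (⟨ω, hω0⟩ : IntermediateField.adjoin ℚ ({ω} : Set ℂ)) (f.map (algebraMap ℤ ℚ)) := by
      apply Subtype.ext
      exact hβf.trans (aeval_algHom_apply (IntermediateField.adjoin ℚ ({ω} : Set ℂ)).val ⟨ω, hω0⟩ _)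
    rw [e2, ← aeval_algHom_apply, aeval_map_algebraMap]
  have hsep : (minpoly ℚ β).Separable := (minpoly.irreducible hintQ).separable
  have hcard := card_rootSet_eq_natDegree (K := ℂ) hsep (IsAlgClosed.splits _)
  rw [← hcard, ← Nat.card_eq_fintype_card, Nat.card_coe_set_eq]
  exact Set.ncard_le_ncard hsub (Set.finite_range x)

open Classical in
theorem K1_fibre {n : ℕ} [NeZero n] {x : (ZMod n)ˣ → ℂ} (hx : x ∈ A n) (c : (ZMod n)ˣ) :
    (Finset.univ.filter fun a => x a = x c).card = (Finset.univ.filter fun a => x a = x 1).card := by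
  have key : ∀ a, x (c * a) = x c ↔ x a = x 1 := by
    intro a
    have hD : (fun b => x (b * a) - x b) ∈ A n := sub_mem (dil_mem hx a) hx
    constructor
    · intro h
      have h1 := eq_zero_of_apply hD (a := c) (by rw [h, sub_self])
      have h2 := congrFun h1 1
      rw [Pi.zero_apply, one_mul] at h2
      exact sub_eq_zero.1 h2
    · intro h
      have h1 := eq_zero_of_apply hD (a := 1) (by rw [one_mul, h, sub_self])
      have h2 := congrFun h1 c
      rw [Pi.zero_apply] at h2
      exact sub_eq_zero.1 h2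
  symm
  refine Finset.card_bij (fun a _ => c * a) ?_ ?_ ?_
  · intro a ha
    rw [Finset.mem_filter] at ha ⊢
    exact ⟨Finset.mem_univ _, (key a).2 ha.2⟩
  · intro a _ b _ h
    exact mul_left_cancel h
  · intro b hb
    rw [Finset.mem_filter] at hb
    refine ⟨c⁻¹ * b, ?_, by rw [mul_inv_cancel_left]⟩
    rw [Finset.mem_filter]
    refine ⟨Finset.mem_univ _, (key _).1 ?_⟩
    rw [mul_inv_cancel_left]
    exact hb.2

open Classical in
theorem K1_count {n : ℕ} [NeZero n] {x : (ZMod n)ˣ → ℂ} (hx : x ∈ A n) (P : ℂ → Prop) :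
    (Finset.univ.filter fun a => P (x a)).card =
      ((Finset.univ.image x).filter P).card * (Finset.univ.filter fun a => x a = x 1).card := by
  rw [Finset.card_eq_sum_card_fiberwise (f := x) (t := (Finset.univ.image x).filter P)]
  · rw [Finset.sum_congr rfl (g := fun _ => (Finset.univ.filter fun a => x a = x 1).card),
      Finset.sum_const, smul_eq_mul]
    intro v hv
    rw [Finset.mem_filter, Finset.mem_image] at hv
    obtain ⟨⟨c, _, rfl⟩, hP⟩ := hv
    rw [← K1_fibre hx c]
    congr 1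
    ext a
    simp only [Finset.mem_filter, Finset.mem_univ, true_and]
    constructor
    · exact fun h => h.2
    · exact fun h => ⟨by rw [h]; exact hP, h⟩
  · intro a ha
    rw [Finset.mem_coe, Finset.mem_filter] at ha ⊢
    exact ⟨Finset.mem_image_of_mem x (Finset.mem_univ a), ha.2⟩

open Classical in
theorem card_big_mul_le {n : ℕ} [NeZero n] {x : (ZMod n)ˣ → ℂ} (hx : x ∈ A n) {β : ℝ}
    (hβ : x 1 = β) (hre : ∀ a, (x a).im = 0) :
    (Finset.univ.filter fun a => 4 < (x a).re).card * (minpoly ℚ β).natDegree ≤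
      {y : ℝ | aeval y (minpoly ℚ β) = 0 ∧ 4 < y}.ncard * Fintype.card (ZMod n)ˣ := by
  have hint := K1_integral_real hx hβ
  have hintQ : IsIntegral ℚ β := hint.tower_top
  set h := (Finset.univ.filter fun a => x a = x 1).card with hh
  have h1 : (Finset.univ.filter fun a => 4 < (x a).re).card =
      ((Finset.univ.image x).filter fun v => 4 < v.re).card * h := K1_count hx (fun v => 4 < v.re)
  have h2 : Fintype.card (ZMod n)ˣ = (Set.range x).ncard * h := by
    have := K1_count hx (fun _ => True)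
    rw [Finset.filter_true, Finset.filter_true, Finset.card_univ] at this
    have e : Set.range x = ((Finset.univ.image x : Finset ℂ) : Set ℂ) := by
      rw [Finset.coe_image, Finset.coe_univ, Set.image_univ]
    rw [this, e, Set.ncard_coe_finset]
  have hfin : {y : ℝ | aeval y (minpoly ℚ β) = 0 ∧ 4 < y}.Finite := by
    refine ((minpoly ℚ β).rootSet ℝ).toFinite.subset ?_
    intro y hy
    exact mem_rootSet.2 ⟨minpoly.ne_zero hintQ, hy.1⟩
  have h3 : ((Finset.univ.image x).filter fun v => 4 < v.re).card ≤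
      {y : ℝ | aeval y (minpoly ℚ β) = 0 ∧ 4 < y}.ncard := by
    rw [← Set.ncard_coe_finset]
    refine Set.ncard_le_ncard_of_injOn Complex.re ?_ ?_ hfin
    · intro v hv
      rw [Finset.mem_coe, Finset.mem_filter, Finset.mem_image] at hv
      obtain ⟨⟨a, _, rfl⟩, h4⟩ := hv
      refine ⟨?_, h4⟩
      have e1 : x a = algebraMap ℝ ℂ (x a).re := by
        apply Complex.ext
        · rfl
        · rw [hre a]; rfl
      have e2 := root_of_apply hx hβ a
      rw [e1, aeval_algebraMap_apply] at e2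
      exact (FaithfulSMul.algebraMap_injective ℝ ℂ) (by rw [e2, map_zero])
    · intro v hv w hw hvw
      rw [Finset.mem_coe, Finset.mem_filter, Finset.mem_image] at hv hw
      obtain ⟨⟨a, _, rfl⟩, _⟩ := hv
      obtain ⟨⟨b, _, rfl⟩, _⟩ := hw
      exact Complex.ext hvw (by rw [hre a, hre b])
  have h4 := natDegree_le_card hx hβ
  rw [h1, h2]
  calc ((Finset.univ.image x).filter fun v => 4 < v.re).card * h * (minpoly ℚ β).natDegree
      ≤ {y : ℝ | aeval y (minpoly ℚ β) = 0 ∧ 4 < y}.ncard * h * (Set.range x).ncard :=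
        Nat.mul_le_mul (Nat.mul_le_mul_right h h3) h4
    _ = _ := by ring

end Pool.Agent.STC
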