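import Pool.Agent.ST5.Q.X3
import Pool.Agent.STC.Defs

/-!
STC row S1. The index of a finite-depth subfactor planar algebra is a cyclotomic integer.
-/

namespace Pool.Agent.STC

open Pool.Agent.ST5 Polynomial

/-- An element of `ℚ(ζ)` which is integral over `ℤ` is the value at `ζ` of an integer polynomial. -/
private lemma S1_integral (n : ℕ) [NeZero n] (ζ : ℂ) (hζ : IsPrimitiveRoot ζ n) (x : ℂ)
    (hx : x ∈ IntermediateField.adjoin ℚ {ζ}) (hint : IsIntegral ℤ x) :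
    ∃ f : ℤ[X], aeval ζ f = x := by
  have hcyc : IsCyclotomicExtension {n} ℚ (IntermediateField.adjoin ℚ {ζ}) := by
    change IsCyclotomicExtension {n} ℚ (IntermediateField.adjoin ℚ {ζ}).toSubalgebra
    rw [IntermediateField.adjoin_simple_toSubalgebra_of_isAlgebraic
      ((hζ.isIntegral (NeZero.pos n)).tower_top (A := ℚ)).isAlgebraic]
    exact hζ.adjoin_isCyclotomicExtension ℚ
  obtain ⟨ζ', hζ'⟩ : ∃ ζ' : IntermediateField.adjoin ℚ {ζ}, (ζ' : ℂ) = ζ :=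
    ⟨⟨ζ, IntermediateField.subset_adjoin ℚ _ (Set.mem_singleton _)⟩, rfl⟩
  have hζp : IsPrimitiveRoot ζ' n := by
    rw [← IsPrimitiveRoot.coe_submonoidClass_iff, hζ']
    exact hζ
  have hcl := IsCyclotomicExtension.Rat.isIntegralClosure_adjoin_singleton hζp
  have hx' : IsIntegral ℤ (⟨x, hx⟩ : IntermediateField.adjoin ℚ {ζ}) := by
    obtain ⟨p, hp, hp0⟩ := hint
    refine ⟨p, hp, ?_⟩
    apply Subtype.ext
    have h1 := Polynomial.hom_eval₂ p (algebraMap ℤ (IntermediateField.adjoin ℚ {ζ}))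
      (algebraMap (IntermediateField.adjoin ℚ {ζ}) ℂ) ⟨x, hx⟩
    have h2 : (algebraMap (IntermediateField.adjoin ℚ {ζ}) ℂ).comp
        (algebraMap ℤ (IntermediateField.adjoin ℚ {ζ})) = algebraMap ℤ ℂ := RingHom.ext_int _ _
    rw [h2] at h1
    exact h1.trans hp0
  obtain ⟨y, hy⟩ := hcl.isIntegral_iff.1 hx'
  have hy2 : (y : IntermediateField.adjoin ℚ {ζ}) ∈ (aeval (R := ℤ) ζ').range := by
    rw [← Algebra.adjoin_singleton_eq_range_aeval]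
    exact y.2
  obtain ⟨f, hf⟩ := hy2
  refine ⟨f, ?_⟩
  have hyx : (y : IntermediateField.adjoin ℚ {ζ}) = ⟨x, hx⟩ := hy
  have hfx : aeval ζ' f = (⟨x, hx⟩ : IntermediateField.adjoin ℚ {ζ}) := hf.trans hyx
  have h1 := Polynomial.hom_eval₂ f (algebraMap ℤ (IntermediateField.adjoin ℚ {ζ}))
      (algebraMap (IntermediateField.adjoin ℚ {ζ}) ℂ) ζ'
  have h2 : (algebraMap (IntermediateField.adjoin ℚ {ζ}) ℂ).comp
        (algebraMap ℤ (IntermediateField.adjoin ℚ {ζ})) = algebraMap ℤ ℂ := RingHom.ext_int _ _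
  rw [h2] at h1
  have h3 : algebraMap (IntermediateField.adjoin ℚ {ζ}) ℂ ζ' = ζ := hζ'
  rw [h3] at h1
  rw [aeval_def, ← h1, ← aeval_def, hfx]
  rfl

/-- The coefficients of `∏ (X - θ)` are in every subfield which contains the `θ`. -/
private lemma S1_coeff (K : IntermediateField ℚ ℂ) (s : Finset ℂ) (hs : ∀ θ ∈ s, θ ∈ K) :
    ∀ j, (∏ θ ∈ s, (X - C θ)).coeff j ∈ K := by
  classical
  induction s using Finset.induction_on with
  | empty =>
    intro j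
    rw [Finset.prod_empty, coeff_one]
    split_ifs
    · exact one_mem _
    · exact zero_mem _
  | insert a s ha ih =>
    intro j
    have ih' := ih fun θ hθ => hs θ (Finset.mem_insert_of_mem hθ)
    have haK : a ∈ K := hs a (Finset.mem_insert_self a s)
    rw [Finset.prod_insert ha, sub_mul, coeff_sub, coeff_C_mul]
    refine sub_mem ?_ (mul_mem haK (ih' j))
    cases j with
    | zero => rw [coeff_X_mul_zero]; exact zero_mem _
    | succ j => rw [coeff_X_mul]; exact ih' j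

theorem index_cyclotomic {T : Type*} [Ring T] [StarRing T] [Algebra ℂ T] [StarModule ℂ T]
    (S : SubfactorPlanarAlgebra T) (hfd : S.FiniteDepth) (hδ : 2 < S.δ) :
    ∃ (n : ℕ) (_ : NeZero n) (x : (ZMod n)ˣ → ℂ), x ∈ A n ∧ x 1 = ((S.δ ^ 2 : ℝ) : ℂ) := by
  classical
  obtain ⟨Q⟩ := SubfactorPlanarAlgebra.exists_system hfd
  have hoE : Q.o ∈ Finset.univ.filter (fun W => Q.a W % 2 = 0) := by
    rw [Finset.mem_filter]
    exact ⟨Finset.mem_univ _, by rw [Q.a_o]⟩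
  have hD : 0 < ∑ k ∈ Finset.univ.filter (fun k => Q.a k % 2 = 0), (Q.d k) ^ 2 :=
    Finset.sum_pos (fun k _ => pow_pos (Q.d_pos k) 2) ⟨Q.o, hoE⟩
  have hint : IsIntegral ℤ (S.δ ^ 2) :=
    delta_sq_integral Q.G Q.o Q.d Q.d_o S.δ Q.pf
  have hintC : IsIntegral ℤ ((S.δ ^ 2 : ℝ) : ℂ) := by
    have h2 := hint.map (IsScalarTower.toAlgHom ℤ ℝ ℂ)
    simpa using h2
  have hmeas : ∀ a, 1 ≤ a →
      ∃ (Θ : Finset ℂ) (η : ℂ → ℝ), (∀ θ ∈ Θ, 0 < η θ) ∧ (∀ θ ∈ Θ, ‖θ‖ = 1) ∧ ∀ j : ℕ,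
        LinearMap.trace ℂ (S.KK (2 * j)) (S.rotK a (2 * j)) = ∑ θ ∈ Θ, (η θ : ℂ) * θ ^ j := by
    intro a ha
    obtain ⟨Θ, η, h1, h2, -, h4⟩ := exists_measure
      (Finset.univ.filter (fun W => Q.a W % 2 = 0)) Q.d
      (fun W _ => Q.d_pos W) _ hD (fun W => ∀ k, Q.EE a W k) (fun W => Q.PP a W)
      (fun W _ μ f hf h0 => Q.PP_eigen ha W μ f hf h0)
      (fun j => LinearMap.trace ℂ (S.KK (2 * j)) (S.rotK a (2 * j)))
      (fun j => Q.trace_formula2 a j) ⊤ (fun _ _ => IntermediateField.mem_top)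
      IntermediateField.mem_top
    exact ⟨Θ, η, h1, h2, h4⟩
  obtain ⟨Θ, η, hη, hΘ, hκ⟩ := hmeas 1 le_rfl
  have hΘ0 : ∀ θ ∈ Θ, θ ≠ 0 := by
    intro θ hθ h0
    have h1 := hΘ θ hθ
    rw [h0, norm_zero] at h1
    exact zero_ne_one h1
  have hroot : ∀ θ ∈ Θ, ∃ n : ℕ, 0 < n ∧ θ ^ n = 1 := by
    refine roots_of_unity_of_bounded Θ η hη hΘ0
      (fun a j => LinearMap.trace ℂ (S.KK (2 * j)) (S.rotK a (2 * j))) ?_ ?_ (fun j _ => hκ j)
    · intro j hj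
      obtain ⟨M, hM⟩ := trace_of_finite_order (S.rotK 1 (2 * j)) j hj (S.rotK_full j)
      refine ⟨M, fun a => ?_⟩
      rw [S.rotK_pow a (2 * j)]
      exact hM a
    · intro a ha
      obtain ⟨Θ', η', hη', hΘ', hκ'⟩ := hmeas a ha
      refine ⟨∑ θ ∈ Θ', η' θ, fun j _ => ?_⟩
      rw [hκ' j]
      refine (norm_sum_le _ _).trans (Finset.sum_le_sum fun θ hθ => ?_)
      rw [norm_mul, norm_pow, hΘ' θ hθ, one_pow, mul_one, Complex.norm_real,
        Real.norm_of_nonneg (hη' θ hθ).le]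
  choose! ord hord using hroot
  obtain ⟨n, hn⟩ : ∃ n, n = (∏ θ ∈ Θ, ord θ) * (Θ.card).factorial := ⟨_, rfl⟩
  have hn0 : 0 < n := by
    rw [hn]
    exact Nat.mul_pos (Finset.prod_pos fun θ hθ => (hord θ hθ).1) (Nat.factorial_pos _)
  have hθn : ∀ θ ∈ Θ, θ ^ n = 1 := by
    intro θ hθ
    obtain ⟨c, hc⟩ : ord θ ∣ n := by
      rw [hn]
      exact Dvd.dvd.mul_right (Finset.dvd_prod_of_mem ord hθ) _
    rw [hc, pow_mul, (hord θ hθ).2, one_pow]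
  have hjn : ∀ j, 1 ≤ j → j ≤ Θ.card → j ∣ n := by
    intro j hj hj2
    rw [hn]
    exact Dvd.dvd.mul_left (Nat.dvd_factorial hj hj2) _
  have hne : NeZero n := ⟨hn0.ne'⟩
  obtain ⟨ζ, hζ⟩ : ∃ ζ : ℂ, ζ = Complex.exp (2 * Real.pi * Complex.I / n) := ⟨_, rfl⟩
  have hζp : IsPrimitiveRoot ζ n := by
    rw [hζ]
    exact Complex.isPrimitiveRoot_exp n hn0.ne'
  obtain ⟨K, hK⟩ : ∃ K, K = IntermediateField.adjoin ℚ {ζ} := ⟨_, rfl⟩
  have hζK : ζ ∈ K := by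
    rw [hK]
    exact IntermediateField.subset_adjoin ℚ _ (Set.mem_singleton _)
  have hmemK : ∀ z : ℂ, z ^ n = 1 → z ∈ K := by
    intro z hz
    obtain ⟨i, -, hi⟩ := hζp.eq_pow_of_pow_eq_one hz
    rw [← hi]
    exact pow_mem hζK i
  have hκK : ∀ j, 1 ≤ j → j ≤ Θ.card → ∑ θ ∈ Θ, (η θ : ℂ) * θ ^ j ∈ K := by
    intro j hj hj2
    rw [← hκ j]
    obtain ⟨M, hM⟩ := trace_of_finite_order (S.rotK 1 (2 * j)) j hj (S.rotK_full j)
    have h1 := hM 1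
    rw [pow_one] at h1
    rw [h1]
    refine sum_mem fun k _ => mul_mem (natCast_mem K _) (hmemK _ ?_)
    obtain ⟨c, hc⟩ := hjn j hj hj2
    rw [← Complex.exp_nat_mul, Complex.exp_eq_one_iff]
    refine ⟨(k : ℕ) * c, ?_⟩
    have hj0 : (j : ℂ) ≠ 0 := by
      exact_mod_cast (show j ≠ 0 by omega)
    rw [hc]
    push_cast
    field_simp
  obtain ⟨P, hP⟩ : ∃ P : ℂ[X], P = ∏ θ ∈ Θ, (X - C θ) := ⟨_, rfl⟩
  have hPK : ∀ j, P.coeff j ∈ K := by
    rw [hP]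
    exact S1_coeff K Θ fun θ hθ => hmemK θ (hθn θ hθ)
  have hPdeg : P.natDegree = Θ.card := by
    rw [hP]
    exact natDegree_finsetProd_X_sub_C_eq_card Θ id
  have hP0 : P.coeff 0 ≠ 0 := by
    rw [coeff_zero_eq_eval_zero, hP, eval_prod]
    refine Finset.prod_ne_zero_iff.mpr fun θ hθ => ?_
    rw [eval_sub, eval_X, eval_C, zero_sub]
    exact neg_ne_zero.mpr (hΘ0 θ hθ)
  have hPθ : ∀ θ ∈ Θ, P.eval θ = 0 := by
    intro θ hθ
    rw [hP, eval_prod]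
    refine Finset.prod_eq_zero hθ ?_
    rw [eval_sub, eval_X, eval_C, sub_self]
  have hsum : ∑ j ∈ Finset.range (Θ.card + 1), P.coeff j * (∑ θ ∈ Θ, (η θ : ℂ) * θ ^ j) = 0 := by
    have h1 : ∑ θ ∈ Θ, (η θ : ℂ) * P.eval θ = 0 :=
      Finset.sum_eq_zero fun θ hθ => by rw [hPθ θ hθ, mul_zero]
    rw [← h1]
    have h2 : ∀ θ : ℂ, P.eval θ = ∑ j ∈ Finset.range (Θ.card + 1), P.coeff j * θ ^ j := by
      intro θ
      rw [eval_eq_sum_range, hPdeg]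
    simp_rw [h2, Finset.mul_sum]
    rw [Finset.sum_comm]
    refine Finset.sum_congr rfl fun θ _ => Finset.sum_congr rfl fun j _ => ?_
    ring
  have hκ0 : ∑ θ ∈ Θ, (η θ : ℂ) * θ ^ 0 = ((S.δ ^ 2 : ℝ) : ℂ) := by
    rw [← hκ 0, S.trace_rotK_zero 1]
    push_cast
    rfl
  have hδK : ((S.δ ^ 2 : ℝ) : ℂ) ∈ K := by
    rw [Finset.sum_range_succ', hκ0] at hsum
    have h1 : ((S.δ ^ 2 : ℝ) : ℂ) = -(∑ j ∈ Finset.range Θ.card,
        P.coeff (j + 1) * (∑ θ ∈ Θ, (η θ : ℂ) * θ ^ (j + 1))) / P.coeff 0 := by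
      rw [eq_div_iff hP0]
      linear_combination hsum
    rw [h1]
    refine div_mem (neg_mem (sum_mem fun j hj => mul_mem (hPK _) (hκK _ (by omega) ?_))) (hPK 0)
    have := Finset.mem_range.1 hj
    omega
  obtain ⟨f, hf⟩ := S1_integral n ζ hζp _ (hK ▸ hδK) hintC
  refine ⟨n, hne, evHom n f, ⟨f, rfl⟩, ?_⟩
  rw [evHom_apply, ← hf]
  congr 1
  have h1 := ZMod.stdAddChar_coe (N := n) 1
  rw [hζ, Units.val_one]
  rw [Int.cast_one] at h1
  rw [h1, Int.cast_one, mul_one]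

end Pool.Agent.STC
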