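import Pool.Agent.ST5.Q.X3

/-!
STC row S2. The conjugates of the index are real numbers in [0, δ²].

PROOF. Q from `exists_system hfd`; B = G², G = Q.G symmetric (`Q.G_symm`) with entries in ℕ, B d = δ² d with d > 0 (`Q.pf` twice, `Q.d_pos`). minpoly ℚ (δ²) divides the
 characteristic polynomial of B over ℚ (δ² is a root: eigenvector d; see `delta_sq_integral` in Pool/Agent/ST5/Q/X2.lean), so a complex root y is an eigenvalue of the
 complex matrix B: B v = y v, v ≠ 0 (`Matrix.exists_mulVec_eq_zero_iff`, `Matrix.eval_charpoly`). ⟨v, B v⟩ = ‖G v‖² gives y = ‖G v‖²/‖v‖² real, ≥ 0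
 (G real symmetric: star v ⬝ᵥ (G (G v)) = star (G v) ⬝ᵥ (G v)). y ≤ δ²: choose i with |v i| / d i maximal: |y| |v i| ≤ ∑_j B_ij |v j| ≤ (|v i|/d i) ∑_j B_ij d j = δ² |v i|.
-/

namespace Pool.Agent.STC

open Pool.Agent.ST5 Polynomial

private theorem S2_sq {J : Type*} [Fintype J] [DecidableEq J] (G : Matrix J J ℕ) (d : J → ℝ)
    (δ : ℝ) (hPF : ∀ i, ∑ j, (G i j : ℝ) * d j = δ * d i) (i : J) :
    ∑ k, (((G * G) i k : ℕ) : ℝ) * d k = δ ^ 2 * d i := by
  calc ∑ k, (((G * G) i k : ℕ) : ℝ) * d k = ∑ k, ∑ j, (G i j : ℝ) * (G j k : ℝ) * d k := by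
        refine Finset.sum_congr rfl fun k _ => ?_
        rw [Matrix.mul_apply, Nat.cast_sum, Finset.sum_mul]
        refine Finset.sum_congr rfl fun j _ => ?_
        rw [Nat.cast_mul]
    _ = ∑ j, (G i j : ℝ) * (δ * d j) := by
        rw [Finset.sum_comm]
        refine Finset.sum_congr rfl fun j _ => ?_
        rw [← hPF j, Finset.mul_sum]
        exact Finset.sum_congr rfl fun k _ => mul_assoc _ _ _
    _ = δ * (δ * d i) := by
        rw [← hPF i, Finset.mul_sum]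
        exact Finset.sum_congr rfl fun j _ => by ring
    _ = δ ^ 2 * d i := by ring

/-- The complex roots of the minimal polynomial of the eigenvalue are eigenvalues. -/
private theorem S2_eigen {J : Type*} [Fintype J] [DecidableEq J] (B : Matrix J J ℕ) (d : J → ℝ)
    (o : J) (hdo : d o ≠ 0) (q : ℝ) (hB : ∀ i, ∑ j, (B i j : ℝ) * d j = q * d i) (y : ℂ)
    (hy : aeval y (minpoly ℚ q) = 0) :
    ∃ v : J → ℂ, v ≠ 0 ∧ ∀ i, ∑ j, (B i j : ℂ) * v j = y * v i := by
  set BQ : Matrix J J ℚ := B.map (fun n => (n : ℚ)) with hBQ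
  have e1 : ∀ (K : Type) [Field K] [Algebra ℚ K] (z : K), aeval z BQ.charpoly =
      (Matrix.scalar J z - B.map (fun n => (n : K))).det := by
    intro K _ _ z
    rw [aeval_def, ← eval_map, ← Matrix.charpoly_map, Matrix.eval_charpoly]
    congr 2
    ext i j
    simp [hBQ, Matrix.map_apply]
  have h1 : aeval q BQ.charpoly = 0 := by
    rw [e1 ℝ q, ← Matrix.exists_mulVec_eq_zero_iff]
    refine ⟨d, fun h => hdo (congrFun h o), ?_⟩
    rw [Matrix.sub_mulVec]
    ext i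
    have h2 : (Matrix.mulVec (Matrix.scalar J q) d) i = q * d i := by
      rw [Matrix.scalar_apply, Matrix.mulVec_diagonal]
    have h3 : (Matrix.mulVec (B.map (fun n => (n : ℝ))) d) i = q * d i := by
      rw [← hB i]
      simp only [Matrix.mulVec, dotProduct, Matrix.map_apply]
    rw [Pi.sub_apply, h2, h3, sub_self, Pi.zero_apply]
  have h2 : aeval y BQ.charpoly = 0 := by
    obtain ⟨r, hr⟩ := minpoly.dvd ℚ q h1
    rw [hr, map_mul, hy, zero_mul]
  rw [e1 ℂ y, ← Matrix.exists_mulVec_eq_zero_iff] at h2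
  obtain ⟨v, hv, hv2⟩ := h2
  refine ⟨v, hv, fun i => ?_⟩
  rw [Matrix.sub_mulVec] at hv2
  have h3 := congrFun hv2 i
  have h4 : (Matrix.mulVec (Matrix.scalar J y) v) i = y * v i := by
    rw [Matrix.scalar_apply, Matrix.mulVec_diagonal]
  have h5 : (Matrix.mulVec (B.map (fun n => (n : ℂ))) v) i = ∑ j, (B i j : ℂ) * v j := by
    simp only [Matrix.mulVec, dotProduct, Matrix.map_apply]
  rw [Pi.sub_apply, Pi.zero_apply, sub_eq_zero, h4, h5] at h3
  exact h3.symm

private theorem S2_main {J : Type*} [Fintype J] [DecidableEq J] (G : Matrix J J ℕ)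
    (hsym : ∀ i j, G i j = G j i) (o : J) (d : J → ℝ) (hd : ∀ i, 0 < d i) (δ : ℝ)
    (hPF : ∀ i, ∑ j, (G i j : ℝ) * d j = δ * d i) (y : ℂ)
    (hy : aeval y (minpoly ℚ (δ ^ 2)) = 0) : y.im = 0 ∧ 0 ≤ y.re ∧ y.re ≤ δ ^ 2 := by
  have hB := S2_sq G d δ hPF
  obtain ⟨v, hv0, hv⟩ := S2_eigen (G * G) d o (hd o).ne' (δ ^ 2) hB y hy
  obtain ⟨i0, hi0⟩ : ∃ i, v i ≠ 0 := by
    by_contra h
    push Not at h
    exact hv0 (funext h)
  have hpos : 0 < ∑ i, ‖v i‖ ^ 2 :=
    Finset.sum_pos' (fun i _ => by positivity)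
      ⟨i0, Finset.mem_univ _, by have := norm_pos_iff.2 hi0; positivity⟩
  -- the quadratic form
  have hq : y * ((∑ i, ‖v i‖ ^ 2 : ℝ) : ℂ) = ((∑ k, ‖∑ j, (G k j : ℂ) * v j‖ ^ 2 : ℝ) : ℂ) := by
    push_cast
    calc y * ∑ i, ((‖v i‖ : ℝ) : ℂ) ^ 2 = ∑ i, (starRingEnd ℂ) (v i) * (y * v i) := by
          rw [Finset.mul_sum]
          refine Finset.sum_congr rfl fun i _ => ?_
          rw [← Complex.conj_mul']
          ring
      _ = ∑ i, (starRingEnd ℂ) (v i) * ∑ j, (((G * G) i j : ℕ) : ℂ) * v j := by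
          refine Finset.sum_congr rfl fun i _ => ?_
          rw [hv]
      _ = ∑ i, ∑ j, ∑ k, (starRingEnd ℂ) ((G k i : ℂ) * v i) * ((G k j : ℂ) * v j) := by
          refine Finset.sum_congr rfl fun i _ => ?_
          rw [Finset.mul_sum]
          refine Finset.sum_congr rfl fun j _ => ?_
          rw [Matrix.mul_apply, Nat.cast_sum, Finset.sum_mul, Finset.mul_sum]
          refine Finset.sum_congr rfl fun k _ => ?_
          rw [map_mul, Complex.conj_natCast, hsym i k, Nat.cast_mul]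
          ring
      _ = ∑ k, ∑ i, ∑ j, (starRingEnd ℂ) ((G k i : ℂ) * v i) * ((G k j : ℂ) * v j) := by
          rw [Finset.sum_comm (γ := J) (s := Finset.univ) (t := Finset.univ)
            (f := fun k i => ∑ j, (starRingEnd ℂ) ((G k i : ℂ) * v i) * ((G k j : ℂ) * v j))]
          refine Finset.sum_congr rfl fun i _ => ?_
          exact Finset.sum_comm
      _ = ∑ k, ((‖∑ j, (G k j : ℂ) * v j‖ : ℝ) : ℂ) ^ 2 := by
          refine Finset.sum_congr rfl fun k _ => ?_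
          rw [← Complex.conj_mul', map_sum, Finset.sum_mul_sum]
  have hyre : y = (((∑ k, ‖∑ j, (G k j : ℂ) * v j‖ ^ 2) / ∑ i, ‖v i‖ ^ 2 : ℝ) : ℂ) := by
    rw [Complex.ofReal_div, eq_div_iff (by exact_mod_cast hpos.ne')]
    exact hq
  have him : y.im = 0 := by rw [hyre, Complex.ofReal_im]
  have hre : 0 ≤ y.re := by
    rw [hyre, Complex.ofReal_re]
    positivity
  refine ⟨him, hre, ?_⟩
  -- the maximum principle
  obtain ⟨i, -, hi⟩ := Finset.exists_max_image Finset.univ (fun i => ‖v i‖ / d i) ⟨o, Finset.mem_univ o⟩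
  set c := ‖v i‖ / d i with hc
  have hc0 : 0 < c := by
    have h1 := hi i0 (Finset.mem_univ _)
    have h2 : 0 < ‖v i0‖ / d i0 := div_pos (norm_pos_iff.2 hi0) (hd i0)
    linarith
  have hle : ∀ j, ‖v j‖ ≤ c * d j := by
    intro j
    have h1 := hi j (Finset.mem_univ _)
    exact (div_le_iff₀ (hd j)).1 h1
  have hvi : ‖v i‖ = c * d i := by rw [hc, div_mul_cancel₀ _ (hd i).ne']
  have h1 : ‖y‖ * (c * d i) ≤ δ ^ 2 * (c * d i) := by
    calc ‖y‖ * (c * d i) = ‖∑ j, (((G * G) i j : ℕ) : ℂ) * v j‖ := by rw [hv, norm_mul, hvi]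
      _ ≤ ∑ j, (((G * G) i j : ℕ) : ℝ) * (c * d j) := by
          refine (norm_sum_le _ _).trans (Finset.sum_le_sum fun j _ => ?_)
          rw [norm_mul, Complex.norm_natCast]
          exact mul_le_mul_of_nonneg_left (hle j) (Nat.cast_nonneg _)
      _ = c * ∑ j, (((G * G) i j : ℕ) : ℝ) * d j := by
          rw [Finset.mul_sum]
          exact Finset.sum_congr rfl fun j _ => by ring
      _ = δ ^ 2 * (c * d i) := by rw [hB]; ring
  have h2 : ‖y‖ ≤ δ ^ 2 := le_of_mul_le_mul_right h1 (mul_pos hc0 (hd i))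
  exact (Complex.re_le_norm y).trans h2

theorem conjugates_index {T : Type*} [Ring T] [StarRing T] [Algebra ℂ T] [StarModule ℂ T]
    (S : SubfactorPlanarAlgebra T) (hfd : S.FiniteDepth) (y : ℂ)
    (hy : aeval y (minpoly ℚ (S.δ ^ 2)) = 0) : y.im = 0 ∧ 0 ≤ y.re ∧ y.re ≤ S.δ ^ 2 := by
  classical
  obtain ⟨Q⟩ := SubfactorPlanarAlgebra.exists_system hfd
  exact S2_main Q.G Q.G_symm Q.o Q.d Q.d_pos S.δ Q.pf y hy

end Pool.Agent.STC
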