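import Pool.Agent.STC.H1
import Pool.Agent.STC.H2
import Pool.Agent.STC.K1
import Pool.Agent.STC.S1
import Pool.Agent.STC.S2
import Pool.Agent.ST5.M.Main

/-!
STC: assembly.
-/

namespace Pool.Agent.STC

open Pool.Agent.ST5 Polynomial

theorem degree_le {T : Type*} [Ring T] [StarRing T] [Algebra ℂ T] [StarModule ℂ T]
    (S : SubfactorPlanarAlgebra T) (hfd : S.FiniteDepth) (hδ : 2 < S.δ)
    (hr : 400 * (S.δ ^ 2 - 2) ^ 2 *
      {y : ℝ | aeval y (minpoly ℚ (S.δ ^ 2)) = 0 ∧ 4 < y}.ncard < (minpoly ℚ (S.δ ^ 2)).natDegree) :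
    (minpoly ℚ (S.δ ^ 2)).natDegree ≤ 614889782588491410 := by
  classical
  obtain ⟨n, hn, x, hx, hx1⟩ := index_cyclotomic S hfd hδ
  obtain ⟨β, hβ⟩ : ∃ β, β = S.δ ^ 2 := ⟨_, rfl⟩
  have hroot : ∀ a, aeval (x a) (minpoly ℚ (S.δ ^ 2)) = 0 := root_of_apply hx hx1
  have hconj : ∀ a, (x a).im = 0 ∧ 0 ≤ (x a).re ∧ (x a).re ≤ S.δ ^ 2 := fun a =>
    conjugates_index S hfd (x a) (hroot a)
  have hcard := natDegree_le_card hx hx1
  have hbc := card_big_mul_le hx hx1 fun a => (hconj a).1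
  rw [← hβ] at hx1 hroot hconj hcard hbc hr ⊢
  have hβ4 : 4 < β := by
    rw [hβ]
    nlinarith
  obtain ⟨y, hy⟩ : ∃ y : (ZMod n)ˣ → ℂ, y = fun a => x a - 2 := ⟨_, rfl⟩
  have hya : ∀ a, y a = x a - 2 := fun a => by rw [hy]
  have hyA : y ∈ A n := by
    have h1 := (A n).sub_mem hx (int_mem_A n 2)
    have h2 : x - (fun _ : (ZMod n)ˣ => ((2 : ℤ) : ℂ)) = y := by
      funext a
      rw [Pi.sub_apply, hya]
      norm_num
    rwa [h2] at h1
  have hyre : ∀ a, (y a).re = (x a).re - 2 := fun a => by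
    rw [hya, Complex.sub_re]
    norm_num
  have hyim : ∀ a, (y a).im = 0 := fun a => by
    rw [hya, Complex.sub_im, (hconj a).1]
    norm_num
  have hge : ∀ a, -2 ≤ (y a).re := fun a => by
    rw [hyre]
    linarith [(hconj a).2.1]
  have hbig : ∃ a, 2 < (y a).re := ⟨1, by
    rw [hyre, hx1, Complex.ofReal_re]
    linarith⟩
  have hL : ∀ a, (y a).re ≤ β - 2 := fun a => by
    rw [hyre]
    linarith [(hconj a).2.2]
  have hM := M_le hyA hyim hge hbig (β - 2) hL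
  have hfil : (Finset.univ.filter fun a => 2 < (y a).re) =
      Finset.univ.filter fun a => 4 < (x a).re := by
    refine Finset.filter_congr fun a _ => ?_
    rw [hyre]
    constructor <;> intro h <;> linarith
  rw [hfil] at hM
  obtain ⟨c, hc⟩ : ∃ c, c = (Finset.univ.filter fun a => 4 < (x a).re).card := ⟨_, rfl⟩
  obtain ⟨m, hm⟩ : ∃ m, m = (minpoly ℚ β).natDegree := ⟨_, rfl⟩
  obtain ⟨r, hr'⟩ : ∃ r, r = {y : ℝ | aeval y (minpoly ℚ β) = 0 ∧ 4 < y}.ncard := ⟨_, rfl⟩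
  obtain ⟨C, hC⟩ : ∃ C, C = Fintype.card (ZMod n)ˣ := ⟨_, rfl⟩
  have hCpos : (0 : ℝ) < C := by
    rw [hC]
    exact card_pos' n
  rw [← hc] at hM hbc
  rw [← hm, ← hr', ← hC] at hbc
  rw [← hr', ← hm] at hr
  rw [← hC] at hM
  rw [← hm] at hcard
  rw [← hm]
  have h1 : (c : ℝ) * m ≤ r * C := by exact_mod_cast hbc
  have h2 : (0 : ℝ) ≤ 400 * (β - 2) ^ 2 := by positivity
  have hmpos : (0 : ℝ) < m := lt_of_le_of_lt (by positivity) hr
  have h3 : 400 * (β - 2) ^ 2 * c < C := by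
    have h4 : 400 * (β - 2) ^ 2 * c * m < C * m := by
      calc 400 * (β - 2) ^ 2 * c * m = 400 * (β - 2) ^ 2 * (c * m) := by ring
        _ ≤ 400 * (β - 2) ^ 2 * (r * C) := mul_le_mul_of_nonneg_left h1 h2
        _ = (400 * (β - 2) ^ 2 * r) * C := by ring
        _ < m * C := mul_lt_mul_of_pos_right hr hCpos
        _ = C * m := by ring
    exact lt_of_mul_lt_mul_right h4 hmpos.le
  have h5 : 2 * (β - 2) ^ 2 * c / C < 1 / 200 := by
    rw [div_lt_iff₀ hCpos]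
    linarith
  have h6 := card_range_le n hyA hyim hge hbig (by linarith)
  have h7 : (Set.range y).ncard = (Set.range x).ncard := by
    have h8 : Set.range y = (fun v => v - 2) '' Set.range x := by
      rw [hy, ← Set.range_comp]
      rfl
    rw [h8]
    exact Set.ncard_image_of_injective _ fun u v huv => by
      have : u - 2 = v - 2 := huv
      linear_combination this
  rw [h7] at h6
  exact hcard.trans h6

theorem conjugate_bound {T : Type*} [Ring T] [StarRing T] [Algebra ℂ T] [StarModule ℂ T]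
    (S : SubfactorPlanarAlgebra T) (hfd : S.FiniteDepth) (hδ : 2 < S.δ) (N : ℕ)
    (hN : S.Supertransitive N) (β : ℝ) (hβ : β = S.δ ^ 2) (r : ℕ)
    (hr : r = {y : ℝ | aeval y (minpoly ℚ β) = 0 ∧ 4 < y}.ncard) :
    N < ⌈(10 ^ 19 + 4000 * (β - 2) ^ 2 * r) * β⌉₊ ^ 14 := by
  have h0 := supertransitivity_lt S hfd hδ N hN
  have h1 := degree_le S hfd hδ
  rw [← hβ] at h0 h1
  rw [← hr] at h1
  refine lt_of_lt_of_le h0 (Nat.pow_le_pow_left (Nat.ceil_le_ceil ?_) 14)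
  have hβ0 : 0 ≤ β := by
    rw [hβ]
    exact sq_nonneg _
  have h3 : (0 : ℝ) ≤ 400 * (β - 2) ^ 2 * r := by positivity
  refine mul_le_mul_of_nonneg_right ?_ hβ0
  by_cases h : 400 * (β - 2) ^ 2 * r < (minpoly ℚ β).natDegree
  · have h2 : ((minpoly ℚ β).natDegree : ℝ) ≤ 614889782588491410 := by exact_mod_cast h1 h
    norm_num
    linarith
  · have h2 := not_lt.1 h
    norm_num
    linarith

end Pool.Agent.STC
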