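import Pool.Agent.STC.Defs

/-!
STC row N1. Norms: the product of the conjugates is an integer; one zero conjugate forces all to be zero.

PROOF. K = CyclotomicField n ℚ, ζ = zeta (`IsCyclotomicExtension.zeta_spec n ℚ K`, primitive n-th root). x a = aeval (ω ^ a) f,
 ω^a := stdAddChar a is a primitive n-th root of unity of ℂ for a unit (stdAddChar 1 = exp (2πi/n), `ZMod.stdAddChar_coe`,
 `Complex.isPrimitiveRoot_exp`, `IsPrimitiveRoot.pow_of_coprime`; or `ZMod.isPrimitive_stdAddChar`), and every primitive root is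
 stdAddChar a for exactly one unit a. The embeddings σ : K →ₐ[ℚ] ℂ correspond to the primitive roots by σ ↦ σ ζ
 (`IsPrimitiveRoot.embeddingsEquivPrimitiveRoots`), so with X := aeval ζ f ∈ K: ∏_a x a = ∏_σ σ X = algebraMap (Algebra.norm ℚ X)
 (`Algebra.norm_eq_prod_embeddings`), and the norm of the integral X is an integer (`Algebra.isIntegral_norm`, `IsIntegrallyClosed`).
 If x a = 0 then σ X = 0 for the corresponding σ, X = 0, all x b = 0.
 (Other route for both: cyclotomic n divides f over ℚ (minpoly of every primitive root is `Polynomial.cyclotomic n ℤ`,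
 `Polynomial.cyclotomic_eq_minpoly`), and the product is a resultant / a symmetric function.)
-/

namespace Pool.Agent.STC

private lemma N1_prim {n : ℕ} [NeZero n] (a : (ZMod n)ˣ) :
    IsPrimitiveRoot (ZMod.stdAddChar ((a : (ZMod n)ˣ) : ZMod n) : ℂ) n := by
  have h2 : ((a : (ZMod n)ˣ) : ZMod n) = ((((a : ZMod n).val : ℤ)) : ZMod n) := by
    simp
  rw [h2, ZMod.stdAddChar_coe]
  have h := Complex.isPrimitiveRoot_exp_of_coprime ((a : ZMod n).val) n (NeZero.ne n)
    (ZMod.val_coe_unit_coprime a)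
  have e : (2 * (Real.pi : ℂ) * Complex.I * (((((a : ZMod n).val : ℕ) : ℤ)) : ℂ) / (n : ℂ))
      = 2 * (Real.pi : ℂ) * Complex.I * ((((a : ZMod n).val : ℕ) : ℂ) / (n : ℂ)) := by
    push_cast
    ring
  rw [e]
  exact h

private lemma N1_inst (n : ℕ) [NeZero n] :
    IsCyclotomicExtension {n} ℚ (CyclotomicField n ℚ) := by
  have h : NeZero ((n : ℕ) : ℚ) := ⟨by exact_mod_cast NeZero.ne n⟩
  exact CyclotomicField.isCyclotomicExtension n ℚ

private lemma N1_key {n : ℕ} [NeZero n] {x : (ZMod n)ˣ → ℂ} (hx : x ∈ A n) :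
    ∃ (X : CyclotomicField n ℚ) (F : (ZMod n)ˣ → (CyclotomicField n ℚ →ₐ[ℚ] ℂ)),
      IsIntegral ℤ X ∧ Function.Bijective F ∧ ∀ a, F a X = x a := by
  classical
  have := N1_inst n
  obtain ⟨f, hf⟩ := mem_A.1 hx
  have hζ := IsCyclotomicExtension.zeta_spec n ℚ (CyclotomicField n ℚ)
  have hirr : Irreducible (Polynomial.cyclotomic n ℚ) :=
    Polynomial.cyclotomic.irreducible_rat (Nat.pos_of_ne_zero (NeZero.ne n))
  let E := hζ.embeddingsEquivPrimitiveRoots ℂ hirr
  let r : (ZMod n)ˣ → primitiveRoots n ℂ := fun a =>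
    ⟨ZMod.stdAddChar ((a : (ZMod n)ˣ) : ZMod n),
      (mem_primitiveRoots (Nat.pos_of_ne_zero (NeZero.ne n))).2 (N1_prim a)⟩
  have hr : Function.Bijective r := by
    rw [Fintype.bijective_iff_injective_and_card]
    constructor
    · intro a b hab
      have h1 : ((r a : primitiveRoots n ℂ) : ℂ) = ((r b : primitiveRoots n ℂ) : ℂ) := by
        rw [hab]
      exact Units.ext (ZMod.injective_stdAddChar h1)
    · rw [Fintype.card_coe, Complex.card_primitiveRoots, ZMod.card_units_eq_totient]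
  refine ⟨Polynomial.aeval (IsCyclotomicExtension.zeta n ℚ (CyclotomicField n ℚ)) f,
    fun a => E.symm (r a), ?_, ?_, ?_⟩
  · have h1 : IsIntegral ℤ (IsCyclotomicExtension.zeta n ℚ (CyclotomicField n ℚ)) :=
      hζ.isIntegral (Nat.pos_of_ne_zero (NeZero.ne n))
    exact IsIntegral.of_mem_of_fg _ h1.fg_adjoin_singleton _
      (Polynomial.aeval_mem_adjoin_singleton ℤ _)
  · exact E.symm.bijective.comp hr
  · intro a
    have h1 : (E.symm (r a)) (IsCyclotomicExtension.zeta n ℚ (CyclotomicField n ℚ))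
        = ZMod.stdAddChar ((a : (ZMod n)ˣ) : ZMod n) := by
      have h2 : ((E (E.symm (r a)) : primitiveRoots n ℂ) : ℂ)
          = (E.symm (r a)) (IsCyclotomicExtension.zeta n ℚ (CyclotomicField n ℚ)) := rfl
      rw [← h2, Equiv.apply_symm_apply]
    rw [hf a, ← h1, Polynomial.aeval_def, Polynomial.aeval_def]
    show ((E.symm (r a)) : CyclotomicField n ℚ →+* ℂ) _ = _
    rw [Polynomial.hom_eval₂]
    congr 1
    exact RingHom.ext_int _ _

theorem prod_int {n : ℕ} [NeZero n] {x : (ZMod n)ˣ → ℂ} (hx : x ∈ A n) :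
    ∃ k : ℤ, ∏ a, x a = k := by
  classical
  have := N1_inst n
  have : FiniteDimensional ℚ (CyclotomicField n ℚ) :=
    IsCyclotomicExtension.finiteDimensional {n} ℚ (CyclotomicField n ℚ)
  obtain ⟨X, F, hX, hF, hFx⟩ := N1_key hx
  have h1 : ∏ a, x a = algebraMap ℚ ℂ (Algebra.norm ℚ X) := by
    rw [Algebra.norm_eq_prod_embeddings ℚ ℂ X]
    refine Fintype.prod_bijective F hF _ _ fun a => ?_
    rw [hFx]
  have h2 : IsIntegral ℤ (Algebra.norm ℚ X) := Algebra.isIntegral_norm ℚ hX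
  obtain ⟨k, hk⟩ := IsIntegrallyClosed.isIntegral_iff.1 h2
  refine ⟨k, ?_⟩
  rw [h1, ← hk]
  simp

theorem eq_zero_of_apply {n : ℕ} [NeZero n] {x : (ZMod n)ˣ → ℂ} (hx : x ∈ A n) {a : (ZMod n)ˣ}
    (h : x a = 0) : x = 0 := by
  obtain ⟨X, F, hX, hF, hFx⟩ := N1_key hx
  have h1 : X = 0 := by
    have h2 : F a X = 0 := by rw [hFx, h]
    exact (map_eq_zero_iff (F a) (F a).injective).1 h2
  funext b
  rw [← hFx b, h1, map_zero]
  rfl

end Pool.Agent.STC
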